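import Pool.Agent.Helper50.Diag.Main

/-!
Size bounds for the hitting set.
-/

namespace Pool.Agent.Helper50.Diag

open Finset

theorem succ_le_two_pow (u : ℕ) : u + 1 ≤ 2 ^ u := Nat.lt_two_pow_self

theorem MM_le (s d : ℕ) (hd : 1 ≤ d) : MM s d ≤ 2 * (s / d) + 2 := by
  unfold MM
  have h1 : s < (s / d + 1) * d := by
    have := Nat.div_add_mod s d
    have h2 := Nat.mod_lt s (show 0 < d by omega)
    have h3 : (s / d + 1) * d = d * (s / d) + d := by ring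
    omega
  have h2 : s < 2 * (s / d + 1) * ((d + 1) / 2) := by
    refine h1.trans_le ?_
    have h3 : d ≤ 2 * ((d + 1) / 2) := by omega
    calc (s / d + 1) * d ≤ (s / d + 1) * (2 * ((d + 1) / 2)) := Nat.mul_le_mul_left _ h3
      _ = _ := by ring
  have h3 : s / ((d + 1) / 2) < 2 * (s / d + 1) :=
    (Nat.div_lt_iff_lt_mul (by omega)).2 h2
  omega

theorem MM_le' (s d : ℕ) (hd : 1 ≤ d) : MM s d ≤ 2 * 2 ^ (s / d) := by
  have h1 := MM_le s d hd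
  have h2 := succ_le_two_pow (s / d)
  omega

theorem MM_succ_le (s d : ℕ) (hd : 1 ≤ d) : MM s d + 1 ≤ 3 * 2 ^ (s / d) := by
  have h1 := MM_le s d hd
  have h2 := succ_le_two_pow (s / d)
  omega

theorem four_pow_le (s d : ℕ) (hd : 1 ≤ d) : 4 ^ (MM s d + 1) ≤ 64 * (2 ^ (s / d)) ^ 4 := by
  have h1 := MM_le s d hd
  calc 4 ^ (MM s d + 1) ≤ 4 ^ (2 * (s / d) + 3) := Nat.pow_le_pow_right (by norm_num) (by omega)
    _ = 64 * (2 ^ (s / d)) ^ 4 := by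
        rw [pow_add, pow_mul, ← pow_mul 2 (s / d) 4, mul_comm (s / d) 4, pow_mul 2 4 (s / d)]
        norm_num
        ring

theorem qq_le' (s d : ℕ) (hs : 1 ≤ s) (hd : 1 ≤ d) :
    qq s d ≤ 2 ^ 13 * ((2 ^ (s / d)) ^ 5 * s ^ 4 * d ^ 4) := by
  refine (qq_le s d hd).trans ?_
  unfold QQ
  set L := 2 ^ (s / d) with hL
  have hL1 : 1 ≤ L := Nat.one_le_two_pow
  have h1 : 4 ^ (MM s d + 1) ≤ 64 * L ^ 4 := four_pow_le s d hd
  have h2 : MM s d ≤ 2 * L := MM_le' s d hd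
  have h3 : (s * (d + 1)) ^ 4 ≤ (s * (2 * d)) ^ 4 := by
    apply Nat.pow_le_pow_left
    apply Nat.mul_le_mul_left
    omega
  have h4 : 4 ^ (MM s d + 1) * (s * (d + 1)) ^ 4 * MM s d ≤
      (64 * L ^ 4) * (s * (2 * d)) ^ 4 * (2 * L) := by gcongr
  have h5 : (64 * L ^ 4) * (s * (2 * d)) ^ 4 * (2 * L) = 2048 * (L ^ 5 * s ^ 4 * d ^ 4) := by ring
  have h6 : d ≤ L ^ 5 * s ^ 4 * d ^ 4 := by
    calc d = 1 * 1 * d ^ 1 := by ring
      _ ≤ L ^ 5 * s ^ 4 * d ^ 4 := by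
        gcongr
        · exact Nat.one_le_pow _ _ hL1
        · exact Nat.one_le_pow _ _ hs
        · norm_num
  omega

theorem TT_le (n s d : ℕ) (hn : 1 ≤ n) (hs : 1 ≤ s) (hd : 1 ≤ d) :
    TT n s d ≤ 6 * (n * s ^ 2 * 2 ^ (s / d)) := by
  unfold TT
  set L := 2 ^ (s / d) with hL
  have hL1 : 1 ≤ L := Nat.one_le_two_pow
  have h2 : MM s d + 1 ≤ 3 * L := MM_succ_le s d hd
  have hs2 : 1 ≤ s ^ 2 := Nat.one_le_pow _ _ hs
  have h3 : s ^ 2 ≤ s ^ 2 * L := Nat.le_mul_of_pos_right _ hL1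
  have h4 : L ≤ s ^ 2 * L := Nat.le_mul_of_pos_left _ hs2
  have h5 : 1 ≤ n * (s ^ 2 * L) := Nat.one_le_iff_ne_zero.2 (by positivity)
  have h6 : (2 * s ^ 2 + (MM s d + 1)) * n ≤ (2 * (s ^ 2 * L) + 3 * (s ^ 2 * L)) * n := by
    apply Nat.mul_le_mul_right
    omega
  calc (2 * s ^ 2 + (MM s d + 1)) * n + 1 ≤ (2 * (s ^ 2 * L) + 3 * (s ^ 2 * L)) * n + n * (s ^ 2 * L) :=
        Nat.add_le_add h6 h5
    _ = 6 * (n * s ^ 2 * L) := by ring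

theorem dq_le (s d : ℕ) (hs : 1 ≤ s) (hd : 1 ≤ d) :
    d * qq s d + 1 ≤ 2 ^ 14 * ((2 ^ (s / d)) ^ 5 * s ^ 4 * d ^ 5) := by
  set L := 2 ^ (s / d) with hL
  have hL1 : 1 ≤ L := Nat.one_le_two_pow
  have h1 := qq_le' s d hs hd
  rw [← hL] at h1
  have h2 : d * qq s d ≤ d * (2 ^ 13 * (L ^ 5 * s ^ 4 * d ^ 4)) := Nat.mul_le_mul_left _ h1
  have h3 : d * (2 ^ 13 * (L ^ 5 * s ^ 4 * d ^ 4)) = 2 ^ 13 * (L ^ 5 * s ^ 4 * d ^ 5) := by ring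
  have h4 : 1 ≤ L ^ 5 * s ^ 4 * d ^ 5 := by
    rw [Nat.one_le_iff_ne_zero]; positivity
  omega

theorem card_H_le (n s d : ℕ) (hn : 1 ≤ n) (hs : 1 ≤ s) (hd : 1 ≤ d) :
    (H n s d).card ≤ 2 ^ 30 * n * s ^ 10 * d ^ 9 * 2 ^ (11 * (s / d)) := by
  set L := 2 ^ (s / d) with hL
  have h1 : (H n s d).card ≤ TT n s d * (qq s d * (d * qq s d + 1)) := by
    unfold H
    refine Finset.card_image_le.trans ?_
    simp [Finset.card_product]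
  have h2 := TT_le n s d hn hs hd
  have h3 := qq_le' s d hs hd
  have h4 := dq_le s d hs hd
  rw [← hL] at h2 h3 h4
  have h5 : 2 ^ (11 * (s / d)) = L ^ 11 := by rw [hL, ← pow_mul, mul_comm]
  rw [h5]
  calc (H n s d).card ≤ TT n s d * (qq s d * (d * qq s d + 1)) := h1
    _ ≤ (6 * (n * s ^ 2 * L)) * ((2 ^ 13 * (L ^ 5 * s ^ 4 * d ^ 4)) * (2 ^ 14 * (L ^ 5 * s ^ 4 * d ^ 5))) := by
        gcongr
    _ = (6 * 2 ^ 27) * (n * s ^ 10 * d ^ 9 * L ^ 11) := by ring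
    _ ≤ 2 ^ 30 * (n * s ^ 10 * d ^ 9 * L ^ 11) := by
        apply Nat.mul_le_mul_right
        norm_num
    _ = 2 ^ 30 * n * s ^ 10 * d ^ 9 * L ^ 11 := by ring

theorem pt_nonneg (n M q t a τ : ℕ) (k : Fin n) : 0 ≤ pt n M q t a τ k := by
  unfold pt
  apply mul_nonneg (by positivity)
  have : 0 ≤ ∑ j ∈ Finset.range M, ((2 : ℤ) ^ ((j + 1) * ((k : ℕ) + 1)) - 1) * (τ : ℤ) ^ (a ^ (j + 1) % q) := by
    apply Finset.sum_nonneg
    intro j _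
    apply mul_nonneg _ (by positivity)
    have : (1 : ℤ) ≤ 2 ^ ((j + 1) * ((k : ℕ) + 1)) := one_le_pow₀ (by norm_num)
    linarith
  linarith

theorem pt_lt (n s d t a τ : ℕ) (hn : 1 ≤ n) (hs : 1 ≤ s) (hd : 1 ≤ d) (ht : t < TT n s d)
    (hτ : τ < d * qq s d + 1) (k : Fin n) :
    pt n (MM s d) (qq s d) t a τ k < 2 ^ (2 ^ 30 * n ^ 2 * s ^ 10 * d ^ 9 * 2 ^ (11 * (s / d))) := by
  set M := MM s d with hM
  set q := qq s d with hq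
  set Tn := TT n s d with hTn
  have hq0 : 0 < q := (qq_prime s d).pos
  have hkn : (k : ℕ) + 1 ≤ n := k.2
  -- first factor
  have h1 : (t : ℤ) ^ ((k : ℕ) + 1) ≤ 2 ^ (Tn * n) := by
    have h2 : t ^ ((k : ℕ) + 1) ≤ (2 ^ Tn) ^ n := by
      calc t ^ ((k : ℕ) + 1) ≤ (2 ^ Tn) ^ ((k : ℕ) + 1) :=
            Nat.pow_le_pow_left (ht.le.trans Nat.lt_two_pow_self.le) _
        _ ≤ (2 ^ Tn) ^ n := Nat.pow_le_pow_right (by positivity) hkn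
    rw [pow_mul]
    exact_mod_cast h2
  have h2 : (1 + ∑ j ∈ Finset.range M, ((2 : ℤ) ^ ((j + 1) * ((k : ℕ) + 1)) - 1) *
      (τ : ℤ) ^ (a ^ (j + 1) % q)) ≤ (1 + M) * 2 ^ (M * n + (d * q + 1) * q) := by
    have h3 : ∀ j ∈ Finset.range M, ((2 : ℤ) ^ ((j + 1) * ((k : ℕ) + 1)) - 1) *
        (τ : ℤ) ^ (a ^ (j + 1) % q) ≤ 2 ^ (M * n + (d * q + 1) * q) := by
      intro j hj
      rw [Finset.mem_range] at hj
      have h4 : ((2 : ℤ) ^ ((j + 1) * ((k : ℕ) + 1)) - 1) ≤ 2 ^ (M * n) := by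
        have h5 : (2 : ℤ) ^ ((j + 1) * ((k : ℕ) + 1)) ≤ 2 ^ (M * n) :=
          pow_le_pow_right₀ (by norm_num) (Nat.mul_le_mul hj hkn)
        linarith
      have h5 : (τ : ℤ) ^ (a ^ (j + 1) % q) ≤ 2 ^ ((d * q + 1) * q) := by
        have h6 : τ ^ (a ^ (j + 1) % q) ≤ (2 ^ (d * q + 1)) ^ q := by
          calc τ ^ (a ^ (j + 1) % q) ≤ (2 ^ (d * q + 1)) ^ (a ^ (j + 1) % q) :=
                Nat.pow_le_pow_left (hτ.le.trans Nat.lt_two_pow_self.le) _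
            _ ≤ (2 ^ (d * q + 1)) ^ q :=
                Nat.pow_le_pow_right (by positivity) (Nat.mod_lt _ hq0).le
        rw [pow_mul]
        exact_mod_cast h6
      rw [pow_add 2 (M * n)]
      apply mul_le_mul h4 h5 (by positivity) (by positivity)
    have h4 := Finset.sum_le_sum h3
    rw [Finset.sum_const, Finset.card_range, nsmul_eq_mul] at h4
    have h5 : (1 : ℤ) ≤ 2 ^ (M * n + (d * q + 1) * q) := one_le_pow₀ (by norm_num)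
    linarith
  have h3 : ((1 : ℤ) + M) ≤ 2 ^ M := by
    have := succ_le_two_pow M
    have h4 : ((M + 1 : ℕ) : ℤ) ≤ ((2 ^ M : ℕ) : ℤ) := by exact_mod_cast this
    push_cast at h4
    linarith
  have h4 : pt n M q t a τ k ≤ 2 ^ (Tn * n) * (2 ^ M * 2 ^ (M * n + (d * q + 1) * q)) := by
    unfold pt
    apply mul_le_mul h1 _ _ (by positivity)
    · refine h2.trans ?_
      apply mul_le_mul_of_nonneg_right h3 (by positivity)
    · have : 0 ≤ ∑ j ∈ Finset.range M, ((2 : ℤ) ^ ((j + 1) * ((k : ℕ) + 1)) - 1) * (τ : ℤ) ^ (a ^ (j + 1) % q) := by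
        apply Finset.sum_nonneg
        intro j _
        apply mul_nonneg _ (by positivity)
        have : (1 : ℤ) ≤ 2 ^ ((j + 1) * ((k : ℕ) + 1)) := one_le_pow₀ (by norm_num)
        linarith
      linarith
  refine h4.trans_lt ?_
  rw [← pow_add, ← pow_add]
  apply pow_lt_pow_right₀ (by norm_num)
  -- exponent bound
  set L := 2 ^ (s / d) with hL
  have hL1 : 1 ≤ L := Nat.one_le_two_pow
  have h5 : 2 ^ (11 * (s / d)) = L ^ 11 := by rw [hL, ← pow_mul, mul_comm]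
  rw [h5]
  have mono4 : ∀ {a b c e a' b' c' e' : ℕ}, a ≤ a' → b ≤ b' → c ≤ c' → e ≤ e' →
      a * b * c * e ≤ a' * b' * c' * e' := fun h1 h2 h3 h4 =>
    Nat.mul_le_mul (Nat.mul_le_mul (Nat.mul_le_mul h1 h2) h3) h4
  have n0 : 1 ≤ n ^ 2 := Nat.one_le_pow _ _ hn
  have n1 : n ≤ n ^ 2 := Nat.le_self_pow (by norm_num) n
  have s0 : 1 ≤ s ^ 10 := Nat.one_le_pow _ _ hs
  have s2 : s ^ 2 ≤ s ^ 10 := Nat.pow_le_pow_right hs (by norm_num)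
  have s8 : s ^ 8 ≤ s ^ 10 := Nat.pow_le_pow_right hs (by norm_num)
  have d0 : 1 ≤ d ^ 9 := Nat.one_le_pow _ _ hd
  have L1 : L ≤ L ^ 11 := Nat.le_self_pow (by norm_num) L
  have L10 : L ^ 10 ≤ L ^ 11 := Nat.pow_le_pow_right hL1 (by norm_num)
  have e1 : Tn * n ≤ 6 * (n ^ 2 * s ^ 10 * d ^ 9 * L ^ 11) := by
    have := TT_le n s d hn hs hd
    rw [← hTn, ← hL] at this
    calc Tn * n ≤ (6 * (n * s ^ 2 * L)) * n := Nat.mul_le_mul_right _ this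
      _ = 6 * (n ^ 2 * s ^ 2 * 1 * L) := by ring
      _ ≤ 6 * (n ^ 2 * s ^ 10 * d ^ 9 * L ^ 11) :=
        Nat.mul_le_mul_left _ (mono4 le_rfl s2 d0 L1)
  have hM' : M ≤ 2 * L := MM_le' s d hd
  have e2 : M ≤ 2 * (n ^ 2 * s ^ 10 * d ^ 9 * L ^ 11) := by
    calc M ≤ 2 * L := hM'
      _ = 2 * (1 * 1 * 1 * L) := by ring
      _ ≤ 2 * (n ^ 2 * s ^ 10 * d ^ 9 * L ^ 11) :=
        Nat.mul_le_mul_left _ (mono4 n0 s0 d0 L1)
  have e3 : M * n ≤ 2 * (n ^ 2 * s ^ 10 * d ^ 9 * L ^ 11) := by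
    calc M * n ≤ 2 * L * n := Nat.mul_le_mul_right _ hM'
      _ = 2 * (n * 1 * 1 * L) := by ring
      _ ≤ 2 * (n ^ 2 * s ^ 10 * d ^ 9 * L ^ 11) :=
        Nat.mul_le_mul_left _ (mono4 n1 s0 d0 L1)
  have e4 : (d * q + 1) * q ≤ 2 ^ 27 * (n ^ 2 * s ^ 10 * d ^ 9 * L ^ 11) := by
    have h6 := dq_le s d hs hd
    have h7 := qq_le' s d hs hd
    rw [← hL, ← hq] at h6 h7
    calc (d * q + 1) * q ≤ (2 ^ 14 * (L ^ 5 * s ^ 4 * d ^ 5)) * (2 ^ 13 * (L ^ 5 * s ^ 4 * d ^ 4)) :=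
          Nat.mul_le_mul h6 h7
      _ = 2 ^ 27 * (1 * s ^ 8 * d ^ 9 * L ^ 10) := by ring
      _ ≤ 2 ^ 27 * (n ^ 2 * s ^ 10 * d ^ 9 * L ^ 11) :=
        Nat.mul_le_mul_left _ (mono4 n0 s8 le_rfl L10)
  have hpos : 0 < n ^ 2 * s ^ 10 * d ^ 9 * L ^ 11 := by positivity
  have e5 : 2 ^ 30 * n ^ 2 * s ^ 10 * d ^ 9 * L ^ 11 = 2 ^ 30 * (n ^ 2 * s ^ 10 * d ^ 9 * L ^ 11) := by
    ring
  rw [e5]
  omega

theorem pow_log_bound (n s d C : ℕ) (hn : 1 ≤ n) (hd : 1 ≤ d)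
    (h : s ≤ C * d * Nat.log 2 (n * d)) : 2 ^ (11 * (s / d)) ≤ (n * d) ^ (11 * C) := by
  have h1 : s / d ≤ C * Nat.log 2 (n * d) := by
    apply Nat.div_le_of_le_mul
    calc s ≤ C * d * Nat.log 2 (n * d) := h
      _ = d * (C * Nat.log 2 (n * d)) := by ring
  have h2 : 2 ^ Nat.log 2 (n * d) ≤ n * d := Nat.pow_log_le_self 2 (by positivity)
  calc 2 ^ (11 * (s / d)) ≤ 2 ^ (11 * (C * Nat.log 2 (n * d))) :=
        Nat.pow_le_pow_right (by norm_num) (Nat.mul_le_mul_left _ h1)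
    _ = (2 ^ Nat.log 2 (n * d)) ^ (11 * C) := by rw [← pow_mul]; congr 1; ring
    _ ≤ (n * d) ^ (11 * C) := Nat.pow_le_pow_left h2 _

end Pool.Agent.Helper50.Diag
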