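import Mathlib

/-!
Low-cone isolation for `∑ cᵢ (bᵢ · y)^d` in `m` variables: extremal monomials have a small cone,
hence a weight assignment separating all small-cone monomials isolates one monomial.
-/

namespace Pool.Agent.Helper50.Diag

open Finset Polynomial

variable {K ι : Type*} [Field K] [Fintype ι]

/-- the coefficient function (without the multinomial factor) -/
def T {m : ℕ} (c : ι → K) (b : ι → Fin m → K) (e : Fin m → ℕ) : K :=
  ∑ i, c i * ∏ j, b i j ^ e j

/-- **Cone bound**: an extremal exponent vector has at most `s (d+1)` divisors. -/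
theorem cone_bound {m : ℕ} (d : ℕ) (c : ι → K) (b : ι → Fin m → K) (κ : (Fin m → ℕ) → ℤ)
    (κadd : ∀ u v, κ (u + v) = κ u + κ v) (e1 : Fin m → ℕ) (hsum : ∑ j, e1 j = d)
    (hinj : ∀ u ≤ e1, ∀ u' ≤ e1, κ u = κ u' → u = u') (hT : T c b e1 ≠ 0)
    (hmax : ∀ e : Fin m → ℕ, ∑ j, e j = d → T c b e ≠ 0 → κ e ≤ κ e1) :
    ∏ j, (e1 j + 1) ≤ Fintype.card ι * (d + 1) := by
  classical
  let I := {u : Fin m → ℕ // u ∈ Finset.Iic e1}
  have hle : ∀ u : I, u.1 ≤ e1 := fun u => Finset.mem_Iic.1 u.2
  have hsumle : ∀ u : I, ∑ j, u.1 j ≤ d := by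
    intro u
    rw [← hsum]
    exact Finset.sum_le_sum (fun j _ => hle u j)
  let P : I → (ι × Fin (d + 1) → K) := fun u p =>
    if ∑ j, u.1 j = (p.2 : ℕ) then c p.1 * ∏ j, b p.1 j ^ u.1 j else 0
  have hli : LinearIndependent K P := by
    rw [Fintype.linearIndependent_iff]
    intro g hg
    by_contra hcon
    push Not at hcon
    obtain ⟨i0, hi0⟩ := hcon
    obtain ⟨u0, hu0, hu0min⟩ := Finset.exists_min_image
      (Finset.univ.filter (fun u : I => g u ≠ 0)) (fun u => κ u.1) ⟨i0, by simp [hi0]⟩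
    simp only [Finset.mem_filter, Finset.mem_univ, true_and] at hu0 hu0min
    have hd0 : ∑ j, u0.1 j < d + 1 := Nat.lt_succ_of_le (hsumle u0)
    -- test against `b^(e1 - u0)` in degree `|u0|`
    have h1 : ∑ i, (∑ u, g u • P u) (i, ⟨∑ j, u0.1 j, hd0⟩) * ∏ j, b i j ^ (e1 j - u0.1 j) = 0 := by
      rw [hg]; simp
    have h2 : ∑ u : I, g u * (if ∑ j, u.1 j = ∑ j, u0.1 j then
        T c b (fun j => u.1 j + (e1 j - u0.1 j)) else 0) = 0 := by
      refine Eq.trans ?_ h1
      simp only [Finset.sum_apply, Pi.smul_apply, smul_eq_mul, P, T, Finset.sum_mul]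
      rw [Finset.sum_comm]
      apply Finset.sum_congr rfl
      intro u _
      by_cases h : ∑ j, u.1 j = ∑ j, u0.1 j
      · rw [if_pos h, Finset.mul_sum]
        apply Finset.sum_congr rfl
        intro i _
        rw [if_pos h]
        simp only [pow_add, Finset.prod_mul_distrib]
        ring
      · rw [if_neg h, mul_zero]
        symm
        apply Finset.sum_eq_zero
        intro i _
        rw [if_neg h]
        ring
    rw [Finset.sum_eq_single u0] at h2
    · rw [if_pos rfl] at h2
      have h3 : (fun j => u0.1 j + (e1 j - u0.1 j)) = e1 := by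
        funext j
        have hle0 : u0.1 j ≤ e1 j := hle u0 j
        omega
      rw [h3] at h2
      exact (mul_ne_zero hu0 hT) h2
    · intro u _ hne
      by_cases hgu : g u = 0
      · rw [hgu, zero_mul]
      · split_ifs with h
        · by_cases hTz : T c b (fun j => u.1 j + (e1 j - u0.1 j)) = 0
          · rw [hTz, mul_zero]
          · exfalso
            have h4 : ∑ j, (u.1 j + (e1 j - u0.1 j)) = d := by
              have h5 : ∑ j, (u0.1 j + (e1 j - u0.1 j)) = d := by
                rw [← hsum]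
                apply Finset.sum_congr rfl
                intro j _
                have hle0 : u0.1 j ≤ e1 j := hle u0 j
                omega
              rw [Finset.sum_add_distrib] at h5 ⊢
              omega
            have h6 := hmax _ h4 hTz
            have h7 : κ (fun j => u.1 j + (e1 j - u0.1 j)) = κ u.1 + κ (fun j => e1 j - u0.1 j) :=
              κadd _ _
            have h8 : κ e1 = κ u0.1 + κ (fun j => e1 j - u0.1 j) := by
              rw [← κadd]
              congr 1
              funext j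
              have hle0 : u0.1 j ≤ e1 j := hle u0 j
              simp only [Pi.add_apply]
              omega
            have h9 : κ u.1 ≤ κ u0.1 := by linarith
            have h10 := hu0min u hgu
            exact hne (Subtype.ext (hinj _ (hle u) _ (hle u0) (le_antisymm h9 h10)))
        · rw [mul_zero]
    · intro h
      exact absurd (Finset.mem_univ _) h
  have hcard := hli.fintype_card_le_finrank
  rw [Module.finrank_fintype_fun_eq_card, Fintype.card_prod, Fintype.card_fin,
    Fintype.card_coe, Pi.card_Iic] at hcard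
  simpa using hcard

/-- exponent vectors of degree `d` with at most `k` divisors -/
def lowCone (m d k : ℕ) : Finset (Fin m → ℕ) :=
  (Finset.piAntidiag Finset.univ d).filter (fun e => ∏ j, (e j + 1) ≤ k)

theorem mem_lowCone {m d k : ℕ} {e : Fin m → ℕ} :
    e ∈ lowCone m d k ↔ ∑ j, e j = d ∧ ∏ j, (e j + 1) ≤ k := by
  simp [lowCone]

private theorem sum_inv_sq (d : ℕ) :
    ∑ x ∈ Finset.range (d + 1), (1 : ℚ) / ((x : ℚ) + 1) ^ 2 ≤ 2 - 1 / ((d : ℚ) + 1) := by
  induction d with
  | zero => norm_num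
  | succ d ih =>
    rw [Finset.sum_range_succ]
    have h1 : (1 : ℚ) / (((d + 1 : ℕ) : ℚ) + 1) ^ 2 ≤ 1 / ((d : ℚ) + 1) - 1 / (((d + 1 : ℕ) : ℚ) + 1) := by
      push_cast
      rw [div_sub_div _ _ (by positivity) (by positivity), div_le_div_iff₀ (by positivity) (by positivity)]
      nlinarith [(Nat.cast_nonneg d : (0 : ℚ) ≤ d)]
    linarith

theorem card_lowCone (m d k : ℕ) : (lowCone m d k).card ≤ 2 ^ m * k ^ 2 := by
  classical
  have h1 : ((lowCone m d k).card : ℚ) ≤ ∑ e ∈ Fintype.piFinset (fun _ : Fin m => Finset.range (d + 1)),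
      (k : ℚ) ^ 2 * ∏ j, (1 : ℚ) / ((e j : ℚ) + 1) ^ 2 := by
    have h2 : ((lowCone m d k).card : ℚ) ≤ ∑ e ∈ lowCone m d k,
        (k : ℚ) ^ 2 * ∏ j, (1 : ℚ) / ((e j : ℚ) + 1) ^ 2 := by
      rw [Finset.card_eq_sum_ones]
      push_cast
      apply Finset.sum_le_sum
      intro e he
      have h3 := (mem_lowCone.1 he).2
      have h4 : ∏ j, (1 : ℚ) / ((e j : ℚ) + 1) ^ 2 = 1 / (∏ j, ((e j : ℚ) + 1)) ^ 2 := by
        rw [Finset.prod_div_distrib, Finset.prod_pow]
        simp
      rw [h4]
      have h5 : (0 : ℚ) < ∏ j, ((e j : ℚ) + 1) := Finset.prod_pos (fun j _ => by positivity)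
      have h6 : ∏ j, ((e j : ℚ) + 1) ≤ k := by exact_mod_cast h3
      rw [mul_one_div, le_div_iff₀ (by positivity), one_mul]
      exact pow_le_pow_left₀ h5.le h6 2
    refine h2.trans (Finset.sum_le_sum_of_subset_of_nonneg ?_ ?_)
    · intro e he
      rw [Fintype.mem_piFinset]
      intro j
      rw [Finset.mem_range]
      have h3 := (mem_lowCone.1 he).1
      have : e j ≤ ∑ j, e j := Finset.single_le_sum (fun _ _ => Nat.zero_le _) (Finset.mem_univ j)
      omega
    · intro e _ _
      positivity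
  have h2 : ∑ e ∈ Fintype.piFinset (fun _ : Fin m => Finset.range (d + 1)),
      (k : ℚ) ^ 2 * ∏ j, (1 : ℚ) / ((e j : ℚ) + 1) ^ 2 =
      (k : ℚ) ^ 2 * (∑ x ∈ Finset.range (d + 1), (1 : ℚ) / ((x : ℚ) + 1) ^ 2) ^ m := by
    rw [← Finset.mul_sum]
    congr 1
    rw [← Finset.prod_univ_sum (fun _ : Fin m => Finset.range (d + 1))
      (fun _ (x : ℕ) => (1 : ℚ) / ((x : ℚ) + 1) ^ 2)]
    simp
  rw [h2] at h1
  have h3 : (∑ x ∈ Finset.range (d + 1), (1 : ℚ) / ((x : ℚ) + 1) ^ 2) ^ m ≤ 2 ^ m := by
    apply pow_le_pow_left₀ (Finset.sum_nonneg (fun x _ => by positivity))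
    have := sum_inv_sq d
    have h4 : (0 : ℚ) < 1 / ((d : ℚ) + 1) := by positivity
    linarith
  have h4 : ((lowCone m d k).card : ℚ) ≤ 2 ^ m * (k : ℚ) ^ 2 := by
    refine h1.trans ?_
    rw [mul_comm]
    exact mul_le_mul_of_nonneg_right h3 (by positivity)
  exact_mod_cast h4

/-- the weights -/
def wt (q a : ℕ) (j : ℕ) : ℕ := if j = 0 then 0 else a ^ j % q

/-- for two different exponent vectors of the same degree `d < q`, few `a` give the same weight -/
theorem bad_card {m : ℕ} (q d : ℕ) [Fact q.Prime] (hdq : d < q) (e e' : Fin m → ℕ)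
    (hs : ∑ j, e j = d) (hs' : ∑ j, e' j = d) (hne : e ≠ e') :
    ((Finset.range q).filter
      (fun a => ∑ j : Fin m, wt q a j * e j = ∑ j : Fin m, wt q a j * e' j)).card ≤ m - 1 := by
  classical
  -- the polynomial
  let Pl : (ZMod q)[X] := ∑ j : Fin m, (if (j : ℕ) = 0 then 0 else
    monomial (j : ℕ) (((e j : ZMod q)) - (e' j : ZMod q)))
  have hex : ∃ j : Fin m, (j : ℕ) ≠ 0 ∧ e j ≠ e' j := by
    by_contra hcon
    push Not at hcon
    apply hne
    funext j
    by_cases hj : (j : ℕ) = 0
    · have h1 : ∑ i ∈ Finset.univ.erase j, e i = ∑ i ∈ Finset.univ.erase j, e' i := by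
        apply Finset.sum_congr rfl
        intro i hi
        apply hcon
        intro h0
        exact (Finset.ne_of_mem_erase hi) (Fin.ext (h0.trans hj.symm))
      have h2 := Finset.add_sum_erase Finset.univ e (Finset.mem_univ j)
      have h3 := Finset.add_sum_erase Finset.univ e' (Finset.mem_univ j)
      omega
    · exact hcon j hj
  obtain ⟨j0, hj0, hne0⟩ := hex
  have hcast : ∀ x y : ℕ, x ≤ d → y ≤ d → (x : ZMod q) = y → x = y := by
    intro x y hx hy hxy
    have := (ZMod.natCast_eq_natCast_iff' _ _ _).1 hxy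
    rwa [Nat.mod_eq_of_lt (by omega), Nat.mod_eq_of_lt (by omega)] at this
  have hle : ∀ j, e j ≤ d := fun j => hs ▸
    Finset.single_le_sum (fun _ _ => Nat.zero_le _) (Finset.mem_univ j)
  have hle' : ∀ j, e' j ≤ d := fun j => hs' ▸
    Finset.single_le_sum (fun _ _ => Nat.zero_le _) (Finset.mem_univ j)
  have hPl : Pl ≠ 0 := by
    intro h0
    have h1 : Pl.coeff j0 = (e j0 : ZMod q) - (e' j0 : ZMod q) := by
      simp only [Pl]
      rw [Polynomial.finsetSum_coeff, Finset.sum_eq_single j0]
      · rw [if_neg hj0]; simp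
      · intro j _ hj
        split_ifs
        · simp
        · rw [Polynomial.coeff_monomial, if_neg]
          intro h
          exact hj (Fin.ext h)
      · intro h
        exact absurd (Finset.mem_univ _) h
    rw [h0, Polynomial.coeff_zero] at h1
    exact hne0 (hcast _ _ (hle _) (hle' _) (sub_eq_zero.1 h1.symm))
  have hdeg : Pl.natDegree ≤ m - 1 := by
    apply Polynomial.natDegree_sum_le_of_forall_le
    intro j _
    split_ifs
    · simp
    · refine (Polynomial.natDegree_monomial_le _).trans ?_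
      have := j.2
      omega
  have hroot : ∀ a ∈ (Finset.range q).filter
      (fun a => ∑ j : Fin m, wt q a j * e j = ∑ j : Fin m, wt q a j * e' j), (a : ZMod q) ∈ Pl.roots.toFinset := by
    intro a ha
    rw [Finset.mem_filter] at ha
    rw [Multiset.mem_toFinset, Polynomial.mem_roots hPl, Polynomial.IsRoot.def]
    have h1 := congrArg (Nat.cast : ℕ → ZMod q) ha.2
    push_cast at h1
    have h2 : ∀ j : Fin m, ((wt q a j : ℕ) : ZMod q) = if (j : ℕ) = 0 then 0 else (a : ZMod q) ^ (j : ℕ) := by
      intro j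
      unfold wt
      split_ifs
      · simp
      · rw [ZMod.natCast_mod]; push_cast; rfl
    simp only [Pl, Polynomial.eval_finsetSum]
    have h3 : ∑ j : Fin m, ((wt q a j : ℕ) : ZMod q) * (e j : ZMod q) -
        ∑ j : Fin m, ((wt q a j : ℕ) : ZMod q) * (e' j : ZMod q) = 0 := sub_eq_zero.2 h1
    rw [← h3, ← Finset.sum_sub_distrib]
    apply Finset.sum_congr rfl
    intro j _
    rw [h2]
    split_ifs
    · simp
    · rw [Polynomial.eval_monomial]; ring
  calc ((Finset.range q).filter
      (fun a => ∑ j : Fin m, wt q a j * e j = ∑ j : Fin m, wt q a j * e' j)).card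
      ≤ Pl.roots.toFinset.card := by
        apply Finset.card_le_card_of_injOn (fun a : ℕ => (a : ZMod q)) hroot
        intro a ha a' ha' haa
        simp only [Finset.coe_filter, Finset.mem_range, Set.mem_ofPred_eq] at ha ha'
        have := (ZMod.natCast_eq_natCast_iff' _ _ _).1 haa
        rwa [Nat.mod_eq_of_lt ha.1, Nat.mod_eq_of_lt ha'.1] at this
    _ ≤ Multiset.card Pl.roots := Multiset.toFinset_card_le _
    _ ≤ Pl.natDegree := Polynomial.card_roots' _
    _ ≤ m - 1 := hdeg

/-- a good multiplier -/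
theorem exists_good {m : ℕ} (q d k : ℕ) [Fact q.Prime] (hdq : d < q)
    (hq : (lowCone m d k).card ^ 2 * (m - 1) < q) :
    ∃ a < q, ∀ e ∈ lowCone m d k, ∀ e' ∈ lowCone m d k,
      ∑ j : Fin m, wt q a j * e j = ∑ j : Fin m, wt q a j * e' j → e = e' := by
  classical
  by_contra hcon
  push Not at hcon
  let pairs := ((lowCone m d k) ×ˢ (lowCone m d k)).filter (fun p => p.1 ≠ p.2)
  have h1 : Finset.range q ⊆ pairs.biUnion (fun p => (Finset.range q).filter
      (fun a => ∑ j : Fin m, wt q a j * p.1 j = ∑ j : Fin m, wt q a j * p.2 j)) := by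
    intro a ha
    obtain ⟨e, he, e', he', hee, hne⟩ := hcon a (Finset.mem_range.1 ha)
    rw [Finset.mem_biUnion]
    refine ⟨(e, e'), ?_, ?_⟩
    · simp only [pairs, Finset.mem_filter, Finset.mem_product]
      exact ⟨⟨he, he'⟩, hne⟩
    · rw [Finset.mem_filter]
      exact ⟨ha, hee⟩
  have h2 := Finset.card_le_card h1
  rw [Finset.card_range] at h2
  have h3 : (pairs.biUnion (fun p => (Finset.range q).filter
      (fun a => ∑ j : Fin m, wt q a j * p.1 j = ∑ j : Fin m, wt q a j * p.2 j))).card ≤ pairs.card * (m - 1) := by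
    apply Finset.card_biUnion_le_card_mul
    intro p hp
    simp only [pairs, Finset.mem_filter, Finset.mem_product] at hp
    exact bad_card q d hdq p.1 p.2 (mem_lowCone.1 hp.1.1).1 (mem_lowCone.1 hp.1.2).1 hp.2
  have h4 : pairs.card ≤ (lowCone m d k).card ^ 2 := by
    refine (Finset.card_filter_le _ _).trans ?_
    rw [Finset.card_product, sq]
  have h5 : pairs.card * (m - 1) ≤ (lowCone m d k).card ^ 2 * (m - 1) := Nat.mul_le_mul_right _ h4
  omega

end Pool.Agent.Helper50.Diag
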