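import Pool.Agent.Helper50.Diag.Cone

/-!
Isolation of one monomial by a univariate substitution.
-/

namespace Pool.Agent.Helper50.Diag

open Finset Polynomial

variable {K ι : Type*} [Field K] [Fintype ι]

/-- base-`(d+1)` value of an exponent vector -/
def dig {m : ℕ} (d : ℕ) (e : Fin m → ℕ) : ℤ := ∑ j, (e j : ℤ) * ((d : ℤ) + 1) ^ (j : ℕ)

theorem dig_eq {m : ℕ} (d : ℕ) (e : Fin m → ℕ) (he : ∀ j, e j ≤ d) :
    dig d e = ((finFunctionFinEquiv (fun j => (⟨e j, Nat.lt_succ_of_le (he j)⟩ : Fin (d + 1))) :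
      Fin ((d + 1) ^ m)) : ℕ) := by
  rw [finFunctionFinEquiv_apply]
  push_cast
  rfl

theorem dig_nonneg {m : ℕ} (d : ℕ) (e : Fin m → ℕ) : 0 ≤ dig d e := by
  unfold dig
  positivity

theorem dig_lt {m : ℕ} (d : ℕ) (e : Fin m → ℕ) (he : ∀ j, e j ≤ d) :
    dig d e < ((d : ℤ) + 1) ^ m := by
  rw [dig_eq d e he]
  exact_mod_cast (finFunctionFinEquiv (fun j => (⟨e j, Nat.lt_succ_of_le (he j)⟩ : Fin (d + 1)))).2

theorem dig_inj {m : ℕ} (d : ℕ) (e e' : Fin m → ℕ) (he : ∀ j, e j ≤ d) (he' : ∀ j, e' j ≤ d)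
    (h : dig d e = dig d e') : e = e' := by
  rw [dig_eq d e he, dig_eq d e' he'] at h
  have h1 : (finFunctionFinEquiv (fun j => (⟨e j, Nat.lt_succ_of_le (he j)⟩ : Fin (d + 1)))) =
      (finFunctionFinEquiv (fun j => (⟨e' j, Nat.lt_succ_of_le (he' j)⟩ : Fin (d + 1)))) :=
    Fin.ext (by exact_mod_cast h)
  have h2 := finFunctionFinEquiv.injective h1
  funext j
  exact congrArg Fin.val (congrFun h2 j)

theorem dig_add {m : ℕ} (d : ℕ) (e e' : Fin m → ℕ) : dig d (e + e') = dig d e + dig d e' := by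
  unfold dig
  rw [← Finset.sum_add_distrib]
  apply Finset.sum_congr rfl
  intro j _
  push_cast [Pi.add_apply]
  ring

private theorem lex_le {x y p r B : ℤ} (hB : 0 < B) (hp : 0 ≤ p) (hr : r < B)
    (h : x * B + p ≤ y * B + r) : x ≤ y := by
  by_contra hcon
  push Not at hcon
  nlinarith

/-- the univariate restriction -/
noncomputable def uni {m : ℕ} (d q a : ℕ) (c : ι → K) (b : ι → Fin m → K) : K[X] :=
  ∑ i, C (c i) * (∑ j : Fin m, C (b i j) * X ^ (wt q a j)) ^ d

theorem uni_eq {m : ℕ} (d q a : ℕ) (c : ι → K) (b : ι → Fin m → K) :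
    uni d q a c b = ∑ e ∈ Finset.piAntidiag Finset.univ d,
      C ((Nat.multinomial Finset.univ e : K) * T c b e) * X ^ (∑ j : Fin m, wt q a j * e j) := by
  unfold uni T
  simp only [Finset.sum_pow_eq_sum_piAntidiag, Finset.mul_sum, map_sum, Finset.sum_mul]
  rw [Finset.sum_comm]
  apply Finset.sum_congr rfl
  intro e _
  apply Finset.sum_congr rfl
  intro i _
  simp only [mul_pow, Finset.prod_mul_distrib, ← pow_mul, map_mul, map_prod, map_pow, map_natCast]
  rw [Finset.prod_pow_eq_pow_sum]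
  ring

theorem eval_eq {m : ℕ} (d : ℕ) (c : ι → K) (b : ι → Fin m → K) (y : Fin m → K) :
    ∑ i, c i * (∑ j, b i j * y j) ^ d = ∑ e ∈ Finset.piAntidiag Finset.univ d,
      ((Nat.multinomial Finset.univ e : K) * T c b e) * ∏ j, y j ^ e j := by
  unfold T
  simp only [Finset.sum_pow_eq_sum_piAntidiag, Finset.mul_sum, Finset.sum_mul]
  rw [Finset.sum_comm]
  apply Finset.sum_congr rfl
  intro e _
  apply Finset.sum_congr rfl
  intro i _
  simp only [mul_pow, Finset.prod_mul_distrib]
  ring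

/-- **Isolation.** -/
theorem isolate [CharZero K] {m : ℕ} (d q : ℕ) [Fact q.Prime] (hdq : d < q) (c : ι → K)
    (b : ι → Fin m → K) (hne : ∃ e : Fin m → ℕ, ∑ j, e j = d ∧ T c b e ≠ 0)
    (hq : (lowCone m d (Fintype.card ι * (d + 1))).card ^ 2 * (m - 1) < q) :
    ∃ a < q, uni d q a c b ≠ 0 := by
  classical
  obtain ⟨a, haq, hgood⟩ := exists_good q d (Fintype.card ι * (d + 1)) hdq hq
  refine ⟨a, haq, ?_⟩
  let S : Finset (Fin m → ℕ) := (Finset.piAntidiag Finset.univ d).filter (fun e => T c b e ≠ 0)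
  have hS : ∀ e, e ∈ S ↔ ∑ j, e j = d ∧ T c b e ≠ 0 := by
    intro e; simp [S]
  have hSne : S.Nonempty := by
    obtain ⟨e, he⟩ := hne
    exact ⟨e, (hS e).2 he⟩
  have hbox : ∀ e : Fin m → ℕ, ∑ j, e j = d → ∀ j, e j ≤ d := fun e he j => he ▸
    Finset.single_le_sum (fun _ _ => Nat.zero_le _) (Finset.mem_univ j)
  set B : ℤ := ((d : ℤ) + 1) ^ m with hB
  have hB0 : 0 < B := by positivity
  let w : (Fin m → ℕ) → ℤ := fun e => ((∑ j : Fin m, wt q a j * e j : ℕ) : ℤ)
  have hwadd : ∀ u v, w (u + v) = w u + w v := by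
    intro u v
    simp only [w]
    push_cast [Pi.add_apply]
    rw [← Finset.sum_add_distrib]
    apply Finset.sum_congr rfl
    intro j _
    ring
  let κ1 : (Fin m → ℕ) → ℤ := fun e => w e * B + dig d e
  let κ2 : (Fin m → ℕ) → ℤ := fun e => w e * B - dig d e
  obtain ⟨e1, he1S, he1max⟩ := Finset.exists_max_image S κ1 hSne
  obtain ⟨e2, he2S, he2max⟩ := Finset.exists_max_image S κ2 hSne
  have he1 := (hS e1).1 he1S
  have he2 := (hS e2).1 he2S
  -- maximality of weights
  have hw1 : ∀ e ∈ S, w e ≤ w e1 := by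
    intro e he
    have h1 := he1max e he
    exact lex_le hB0 (dig_nonneg d e) (dig_lt d e1 (hbox e1 he1.1)) h1
  have hw2 : ∀ e ∈ S, w e ≤ w e2 := by
    intro e he
    have h1 : w e * B - dig d e ≤ w e2 * B - dig d e2 := he2max e he
    have h2 : w e * B + dig d e2 ≤ w e2 * B + dig d e := by linarith
    exact lex_le hB0 (dig_nonneg d e2) (dig_lt d e (hbox e ((hS e).1 he).1)) h2
  have hw12 : w e1 = w e2 := le_antisymm (hw2 e1 he1S) (hw1 e2 he2S)
  -- low cones
  have hc1 : e1 ∈ lowCone m d (Fintype.card ι * (d + 1)) := by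
    rw [mem_lowCone]
    refine ⟨he1.1, cone_bound d c b κ1 ?_ e1 he1.1 ?_ he1.2 ?_⟩
    · intro u v
      simp only [κ1, hwadd, dig_add]
      ring
    · intro u hu u' hu' h
      have hbu : ∀ j, u j ≤ d := fun j => (hu j).trans (hbox e1 he1.1 j)
      have hbu' : ∀ j, u' j ≤ d := fun j => (hu' j).trans (hbox e1 he1.1 j)
      have h' : w u * B + dig d u = w u' * B + dig d u' := h
      have h1 : w u = w u' := le_antisymm (lex_le hB0 (dig_nonneg d u) (dig_lt d u' hbu') h'.le)
        (lex_le hB0 (dig_nonneg d u') (dig_lt d u hbu) h'.ge)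
      rw [h1] at h'
      exact dig_inj d u u' hbu hbu' (by linarith)
    · intro e he hTe
      exact he1max e ((hS e).2 ⟨he, hTe⟩)
  have hc2 : e2 ∈ lowCone m d (Fintype.card ι * (d + 1)) := by
    rw [mem_lowCone]
    refine ⟨he2.1, cone_bound d c b κ2 ?_ e2 he2.1 ?_ he2.2 ?_⟩
    · intro u v
      simp only [κ2, hwadd, dig_add]
      ring
    · intro u hu u' hu' h
      have hbu : ∀ j, u j ≤ d := fun j => (hu j).trans (hbox e2 he2.1 j)
      have hbu' : ∀ j, u' j ≤ d := fun j => (hu' j).trans (hbox e2 he2.1 j)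
      have h' : w u * B - dig d u = w u' * B - dig d u' := h
      have h'' : w u * B + dig d u' = w u' * B + dig d u := by linarith
      have h1 : w u = w u' := le_antisymm (lex_le hB0 (dig_nonneg d u') (dig_lt d u hbu) h''.le)
        (lex_le hB0 (dig_nonneg d u) (dig_lt d u' hbu') h''.ge)
      rw [h1] at h'
      exact dig_inj d u u' hbu hbu' (by linarith)
    · intro e he hTe
      exact he2max e ((hS e).2 ⟨he, hTe⟩)
  have h12 : e1 = e2 := by
    apply hgood e1 hc1 e2 hc2
    have : ((∑ j : Fin m, wt q a j * e1 j : ℕ) : ℤ) = ((∑ j : Fin m, wt q a j * e2 j : ℕ) : ℤ) := hw12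
    exact_mod_cast this
  have huniq : ∀ e ∈ S, w e = w e1 → e = e1 := by
    intro e he hwe
    have h1 : w e * B + dig d e ≤ w e1 * B + dig d e1 := he1max e he
    have h2 : w e * B - dig d e ≤ w e1 * B - dig d e1 := by
      have := he2max e he
      rw [← h12] at this
      exact this
    rw [hwe] at h1 h2
    exact dig_inj d e e1 (hbox e ((hS e).1 he).1) (hbox e1 he1.1) (by linarith)
  intro h0
  have hcoeff : (uni d q a c b).coeff (∑ j : Fin m, wt q a j * e1 j) =
      (Nat.multinomial Finset.univ e1 : K) * T c b e1 := by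
    rw [uni_eq, Polynomial.finsetSum_coeff, Finset.sum_eq_single e1]
    · rw [Polynomial.coeff_C_mul, Polynomial.coeff_X_pow, if_pos rfl, mul_one]
    · intro e he hee
      rw [Polynomial.coeff_C_mul, Polynomial.coeff_X_pow]
      split_ifs with h
      · by_cases hTe : T c b e = 0
        · rw [hTe]; ring
        · exfalso
          apply hee
          apply huniq e ((hS e).2 ⟨(by simpa using he), hTe⟩)
          simp only [w]
          exact_mod_cast h.symm
      · ring
    · intro h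
      exfalso
      apply h
      simpa using he1.1
  rw [h0, Polynomial.coeff_zero] at hcoeff
  have h1 : (Nat.multinomial Finset.univ e1 : K) ≠ 0 := by
    exact_mod_cast (Nat.multinomial_pos Finset.univ e1).ne'
  exact (mul_ne_zero h1 he1.2) hcoeff.symm

theorem wt_le (q a j : ℕ) (hq : 0 < q) : wt q a j ≤ q - 1 := by
  unfold wt
  split_ifs
  · exact Nat.zero_le _
  · have := Nat.mod_lt (a ^ j) hq
    omega

theorem uni_natDegree {m : ℕ} (d q a : ℕ) (hq : 0 < q) (c : ι → K) (b : ι → Fin m → K) :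
    (uni d q a c b).natDegree ≤ d * (q - 1) := by
  unfold uni
  apply Polynomial.natDegree_sum_le_of_forall_le
  intro i _
  refine (Polynomial.natDegree_C_mul_le _ _).trans ?_
  refine (Polynomial.natDegree_pow_le).trans ?_
  apply Nat.mul_le_mul_left
  apply Polynomial.natDegree_sum_le_of_forall_le
  intro j _
  refine (Polynomial.natDegree_C_mul_X_pow_le _ _).trans (wt_le q a j hq)

theorem uni_eval {m : ℕ} (d q a : ℕ) (c : ι → K) (b : ι → Fin m → K) (t : K) :
    (uni d q a c b).eval t = ∑ i, c i * (∑ j, b i j * t ^ (wt q a j)) ^ d := by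
  unfold uni
  simp [Polynomial.eval_finsetSum]

end Pool.Agent.Helper50.Diag
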