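import Pool.Agent.Helper50.Diag.Reduce

/-!
The explicit hitting set for sums of `s` `d`-th powers of affine forms and its analysis.
-/

namespace Pool.Agent.Helper50.Diag

open Finset Module

/-- number of extra directions -/
def MM (s d : ℕ) : ℕ := s / ((d + 1) / 2) + 1

/-- lower bound for the prime -/
def QQ (s d : ℕ) : ℕ := 4 ^ (MM s d + 1) * (s * (d + 1)) ^ 4 * MM s d + d

theorem exists_prime_gt (Q : ℕ) : ∃ q, Q < q ∧ q.Prime := by
  obtain ⟨q, hq, hp⟩ := Nat.exists_infinite_primes (Q + 1)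
  exact ⟨q, hq, hp⟩

/-- the smallest prime above `QQ s d` -/
def qq (s d : ℕ) : ℕ := Nat.find (exists_prime_gt (QQ s d))

/-- number of curve parameters -/
def TT (n s d : ℕ) : ℕ := (2 * s ^ 2 + (MM s d + 1)) * n + 1

/-- The point with parameters `t, a, τ`:
`x_k = t^k (1 + ∑_{j=1}^{M} (2^{jk} - 1) τ^{a^j mod q})`, `k = 1, …, n`. -/
def pt (n M q t a τ : ℕ) : Fin n → ℤ := fun k =>
  (t : ℤ) ^ ((k : ℕ) + 1) *
    (1 + ∑ j ∈ Finset.range M, (2 ^ ((j + 1) * ((k : ℕ) + 1)) - 1) * (τ : ℤ) ^ (a ^ (j + 1) % q))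

/-- The hitting set. -/
def H (n s d : ℕ) : Finset (Fin n → ℤ) :=
  ((Finset.range (TT n s d)) ×ˢ ((Finset.range (qq s d)) ×ˢ (Finset.range (d * qq s d + 1)))).image
    (fun x => pt n (MM s d) (qq s d) x.1 x.2.1 x.2.2)

/-- `f` is a sum of `s` `d`-th powers of affine forms, with coefficients. -/
def IsDiag (n s d : ℕ) (f : MvPolynomial (Fin n) ℂ) : Prop :=
  ∃ (c α : Fin s → ℂ) (β : Fin s → Fin n → ℂ),
    f = ∑ i, MvPolynomial.C (c i) *
      (MvPolynomial.C (α i) + ∑ k, MvPolynomial.C (β i k) * MvPolynomial.X k) ^ d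

theorem qq_prime (s d : ℕ) : (qq s d).Prime := (Nat.find_spec (exists_prime_gt (QQ s d))).2

theorem qq_gt (s d : ℕ) : QQ s d < qq s d := (Nat.find_spec (exists_prime_gt (QQ s d))).1

theorem qq_le (s d : ℕ) (hd : 1 ≤ d) : qq s d ≤ 2 * QQ s d := by
  have h0 : QQ s d ≠ 0 := by unfold QQ; omega
  obtain ⟨p, hp, hlt, hle⟩ := Nat.exists_prime_lt_and_le_two_mul (QQ s d) h0
  exact (Nat.find_min' (exists_prime_gt (QQ s d)) ⟨hlt, hp⟩).trans hle

/-- the coordinate functional -/
noncomputable def fn {N : ℕ} (x : Fin N → ℂ) : Dual ℂ (Fin N → ℂ) :=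
  ∑ k, x k • LinearMap.proj k

theorem fn_apply {N : ℕ} (x a : Fin N → ℂ) : fn x a = ∑ k, a k * x k := by
  simp [fn, mul_comm]

theorem eval_diag {n s d : ℕ} (c α : Fin s → ℂ) (β : Fin s → Fin n → ℂ) (x : Fin n → ℂ) :
    MvPolynomial.eval x (∑ i, MvPolynomial.C (c i) *
      (MvPolynomial.C (α i) + ∑ k, MvPolynomial.C (β i k) * MvPolynomial.X k) ^ d) =
    ∑ i, c i * (fn (Fin.cons 1 x : Fin (n + 1) → ℂ) (Fin.cons (α i) (β i) : Fin (n + 1) → ℂ)) ^ d := by
  simp [fn_apply, Fin.sum_univ_succ]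

theorem hits (n s d : ℕ) (hd : 1 ≤ d) (f : MvPolynomial (Fin n) ℂ) (hf : IsDiag n s d f)
    (hf0 : f ≠ 0) : ∃ p ∈ H n s d, MvPolynomial.eval (fun k => (p k : ℂ)) f ≠ 0 := by
  classical
  obtain ⟨c, α, β, rfl⟩ := hf
  have hx : ∃ x : Fin n → ℂ, MvPolynomial.eval x (∑ i, MvPolynomial.C (c i) *
      (MvPolynomial.C (α i) + ∑ k, MvPolynomial.C (β i k) * MvPolynomial.X k) ^ d) ≠ 0 := by
    by_contra hcon
    push Not at hcon
    exact hf0 (MvPolynomial.funext (fun x => by rw [hcon x]; simp))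
  obtain ⟨x, hx⟩ := hx
  rw [eval_diag] at hx
  set a : Fin s → Fin (n + 1) → ℂ := fun i => Fin.cons (α i) (β i) with ha
  obtain ⟨S, c', hrep, hc', ha0, hpair⟩ := minimal_rep (d := d) (by omega) c a
  set M := MM s d with hM
  set q := qq s d with hq
  have : Fact q.Prime := ⟨qq_prime s d⟩
  have hk1 : 1 ≤ (d + 1) / 2 := by omega
  have hred := reduce (K := ℂ) (ι := {i // i ∈ S}) (n + 1) (M + 1) s d ((d + 1) / 2) (by omega)
    (by
      have h1 : 1 ≤ M := by rw [hM]; unfold MM; exact Nat.le_add_left 1 _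
      omega)
    (by
      have h1 := Nat.div_add_mod s ((d + 1) / 2)
      have h2 := Nat.mod_lt s (show 0 < (d + 1) / 2 by omega)
      rw [hM]
      unfold MM
      have h3 : (d + 1) / 2 * (s / ((d + 1) / 2) + 1 + 1) =
        (d + 1) / 2 * (s / ((d + 1) / 2)) + (d + 1) / 2 + (d + 1) / 2 := by ring
      omega)
    (by
      rw [Fintype.card_coe]
      simpa using Finset.card_le_univ S)
    (fun i => c' i) (fun i => a i) (fun i => hc' i i.2) (fun i => ha0 i i.2)
    (fun i j hij => hpair i i.2 j j.2 (fun h => hij (Subtype.ext h)))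
    ⟨fn (Fin.cons 1 x : Fin (n + 1) → ℂ), by
      rw [Finset.sum_coe_sort S (fun i => c' i * (fn (Fin.cons 1 x : Fin (n + 1) → ℂ) (a i)) ^ d),
        hrep]
      exact hx⟩
  obtain ⟨t, ht, y, hy⟩ := hred
  -- change of coordinates
  set E := ext (K := ℂ) (n + 1) (M + 1) (t : ℂ) with hE
  let b : {i // i ∈ S} → Fin (M + 1) → ℂ := fun i =>
    Fin.cons (E (a i) 0) (fun j : Fin M => E (a i) j.succ - E (a i) 0)
  let yc : Fin (M + 1) → ℂ := fun j => y (Pi.single j 1)
  let y' : Fin (M + 1) → ℂ := Fin.cons (∑ j, yc j) (fun j : Fin M => yc j.succ)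
  have hycoord : ∀ v : Fin (M + 1) → ℂ, y v = ∑ j, v j * yc j := by
    intro v
    conv_lhs => rw [pi_eq_sum_univ' v]
    rw [map_sum]
    apply Finset.sum_congr rfl
    intro j _
    rw [map_smul, smul_eq_mul]
  have hby : ∀ i, ∑ j, b i j * y' j = y (E (a i)) := by
    intro i
    rw [hycoord, Fin.sum_univ_succ, Fin.sum_univ_succ]
    simp only [b, y', Fin.cons_zero, Fin.cons_succ]
    rw [Fin.sum_univ_succ, mul_add, Finset.mul_sum, add_assoc, ← Finset.sum_add_distrib]
    congr 1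
    apply Finset.sum_congr rfl
    intro j _
    ring
  have hTne : ∃ e : Fin (M + 1) → ℕ, ∑ j, e j = d ∧ T (fun i : {i // i ∈ S} => c' i) b e ≠ 0 := by
    by_contra hcon
    push Not at hcon
    apply hy
    have h1 : ∑ i : {i // i ∈ S}, c' i * (y (E (a i))) ^ d =
        ∑ i : {i // i ∈ S}, c' i * (∑ j, b i j * y' j) ^ d := by
      apply Finset.sum_congr rfl
      intro i _
      rw [hby]
    rw [h1, eval_eq d (fun i : {i // i ∈ S} => c' i) b y']
    apply Finset.sum_eq_zero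
    intro e he
    rw [hcon e (by simpa using he)]
    ring
  have hScard : Fintype.card {i // i ∈ S} ≤ s := by
    rw [Fintype.card_coe]
    simpa using Finset.card_le_univ S
  have hlow : (lowCone (M + 1) d (Fintype.card {i // i ∈ S} * (d + 1))).card ^ 2 * (M + 1 - 1) < q := by
    have h1 := card_lowCone (M + 1) d (Fintype.card {i // i ∈ S} * (d + 1))
    have h2 : (lowCone (M + 1) d (Fintype.card {i // i ∈ S} * (d + 1))).card ≤
        2 ^ (M + 1) * (s * (d + 1)) ^ 2 := by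
      refine h1.trans ?_
      gcongr
    have h3 : (lowCone (M + 1) d (Fintype.card {i // i ∈ S} * (d + 1))).card ^ 2 * M ≤
        (2 ^ (M + 1) * (s * (d + 1)) ^ 2) ^ 2 * M := by
      gcongr
    have h4 : (2 ^ (M + 1) * (s * (d + 1)) ^ 2) ^ 2 * M = 4 ^ (M + 1) * (s * (d + 1)) ^ 4 * M := by
      rw [mul_pow, ← pow_mul, ← pow_mul, mul_comm (M + 1) 2, pow_mul]
      norm_num
    have h5 := qq_gt s d
    unfold QQ at h5
    rw [← hM, ← hq] at h5
    have h6 : M + 1 - 1 = M := by omega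
    rw [h6]
    omega
  have hdq : d < q := by
    have h5 := qq_gt s d
    unfold QQ at h5
    rw [← hq] at h5
    omega
  obtain ⟨aa, haa, huni⟩ := isolate d q hdq (fun i : {i // i ∈ S} => c' i) b hTne hlow
  -- the last parameter
  have hτ : ∃ τ < d * q + 1, (uni d q aa (fun i : {i // i ∈ S} => c' i) b).eval (τ : ℂ) ≠ 0 := by
    by_contra hcon
    push Not at hcon
    have h1 : ((Finset.range (d * q + 1)).image (fun t : ℕ => (t : ℂ))) ⊆
        (uni d q aa (fun i : {i // i ∈ S} => c' i) b).roots.toFinset := by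
      intro z hz
      obtain ⟨t, ht, rfl⟩ := Finset.mem_image.1 hz
      rw [Multiset.mem_toFinset, Polynomial.mem_roots huni, Polynomial.IsRoot.def]
      exact hcon t (Finset.mem_range.1 ht)
    have h2 := Finset.card_le_card h1
    rw [Finset.card_image_of_injective _ Nat.cast_injective, Finset.card_range] at h2
    have h3 := Multiset.toFinset_card_le (uni d q aa (fun i : {i // i ∈ S} => c' i) b).roots
    have h4 := Polynomial.card_roots' (uni d q aa (fun i : {i // i ∈ S} => c' i) b)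
    have h5 := uni_natDegree d q aa (by omega) (fun i : {i // i ∈ S} => c' i) b
    have h6 : d * (q - 1) ≤ d * q := Nat.mul_le_mul_left _ (Nat.sub_le _ _)
    omega
  obtain ⟨τ, hτlt, hτ⟩ := hτ
  refine ⟨pt n M q t aa τ, ?_, ?_⟩
  · unfold H
    rw [Finset.mem_image]
    refine ⟨(t, aa, τ), ?_, rfl⟩
    simp only [Finset.mem_product, Finset.mem_range]
    refine ⟨?_, haa, hτlt⟩
    unfold TT
    simpa using ht
  · rw [eval_diag, ← hrep, ← Finset.sum_coe_sort S]
    rw [uni_eval] at hτ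
    convert! hτ using 1
    apply Finset.sum_congr rfl
    intro i _
    congr 2
    rw [fn_apply, Fin.sum_univ_succ (n := M)]
    simp only [b, Fin.cons_zero, Fin.cons_succ, hE, ext_apply, pol_eval]
    have hw0 : wt q aa ((0 : Fin (M + 1)) : ℕ) = 0 := by simp [wt]
    have hwj : ∀ j : Fin M, wt q aa ((j.succ : Fin (M + 1)) : ℕ) = aa ^ ((j : ℕ) + 1) % q := by
      intro j
      simp [wt]
    rw [hw0]
    simp only [hwj]
    -- everything as a sum over `k`
    have hR : (∑ k : Fin (n + 1), a i k * (2 ^ ((0 : Fin (M + 1)) : ℕ) * (t : ℂ)) ^ (k : ℕ)) * (τ : ℂ) ^ 0 +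
        ∑ j : Fin M, (∑ k : Fin (n + 1), a i k * (2 ^ ((j.succ : Fin (M + 1)) : ℕ) * (t : ℂ)) ^ (k : ℕ) -
          ∑ k : Fin (n + 1), a i k * (2 ^ ((0 : Fin (M + 1)) : ℕ) * (t : ℂ)) ^ (k : ℕ)) *
            (τ : ℂ) ^ (aa ^ ((j : ℕ) + 1) % q) =
        ∑ k : Fin (n + 1), a i k * ((t : ℂ) ^ (k : ℕ) * (1 + ∑ j : Fin M,
          (2 ^ (((j : ℕ) + 1) * (k : ℕ)) - 1) * (τ : ℂ) ^ (aa ^ ((j : ℕ) + 1) % q))) := by
      simp only [Fin.val_zero, pow_zero, one_mul, mul_one, Fin.val_succ]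
      simp only [← Finset.sum_sub_distrib, Finset.sum_mul, mul_add, Finset.mul_sum,
        Finset.sum_add_distrib]
      congr 1
      · simp
      · rw [Finset.sum_comm]
        apply Finset.sum_congr rfl
        intro k _
        apply Finset.sum_congr rfl
        intro j _
        rw [mul_pow, ← pow_mul]
        ring
    rw [hR]
    apply Finset.sum_congr rfl
    intro k _
    congr 1
    refine Fin.cases ?_ (fun k => ?_) k
    · simp
    · simp only [Fin.cons_succ, pt]
      push_cast [Fin.val_succ]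
      congr 2
      rw [Finset.sum_range]

end Pool.Agent.Helper50.Diag
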