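import Mathlib

/-!
Rado's theorem (transversals of finite families of finite sets of vectors that are linearly
independent) and the matroid covering theorem (Edmonds) for vectors, both over a field.
-/

namespace Pool.Agent.Helper50.Diag

open Submodule Module Finset

variable {K V ι : Type*} [Field K] [AddCommGroup V] [Module K V]

/-- rank of the union of the members of the family indexed by `A`. -/
noncomputable def rk (K : Type*) {V ι : Type*} [Field K] [AddCommGroup V] [Module K V]
    (S : ι → Finset V) (A : Finset ι) : ℕ :=
  finrank K (span K (⋃ i ∈ A, (S i : Set V)))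

private lemma fd_span [DecidableEq ι] (S : ι → Finset V) (A : Finset ι) :
    FiniteDimensional K (span K (⋃ i ∈ A, (S i : Set V))) := by
  apply FiniteDimensional.span_of_finite
  exact Set.Finite.biUnion A.finite_toSet (fun i _ => (S i).finite_toSet)

/-- **Rado's theorem** for vectors. -/
theorem rado [Fintype ι] [DecidableEq ι] [DecidableEq V] (n : ℕ) :
    ∀ S : ι → Finset V, (∑ i, (S i).card = n) → (∀ A : Finset ι, A.card ≤ rk K S A) →
      ∃ x : ι → V, (∀ i, x i ∈ S i) ∧ LinearIndependent K x := by
  induction n using Nat.strong_induction_on with
  | _ n ih =>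
  intro S hn h
  by_cases hS : ∀ i, (S i).card ≤ 1
  · -- all sets are singletons
    have hne : ∀ i, (S i).Nonempty := by
      intro i
      by_contra hcon
      rw [Finset.not_nonempty_iff_eq_empty] at hcon
      have h0 := h {i}
      have h1 : rk K S {i} = 0 := by
        have h2 : (⋃ i' ∈ ({i} : Finset ι), (S i' : Set V)) = ∅ := by
          ext v
          simp [hcon]
        rw [rk, h2, span_empty]
        exact finrank_bot K V
      rw [h1] at h0
      simp at h0
    choose x hx using hne
    refine ⟨x, hx, ?_⟩
    rw [linearIndependent_iff_card_le_finrank_span]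
    have h1 := h Finset.univ
    have h2 : (⋃ i ∈ (Finset.univ : Finset ι), (S i : Set V)) = Set.range x := by
      ext v
      simp only [Finset.mem_univ, Set.iUnion_true, Set.mem_iUnion, Finset.mem_coe, Set.mem_range]
      constructor
      · rintro ⟨i, hi⟩
        exact ⟨i, Finset.card_le_one.1 (hS i) _ (hx i) _ hi⟩
      · rintro ⟨i, rfl⟩
        exact ⟨i, hx i⟩
    rw [rk, h2] at h1
    simpa [Set.finrank] using h1
  · push Not at hS
    obtain ⟨i0, hi0⟩ := hS
    obtain ⟨x, hx, y, hy, hxy⟩ := Finset.one_lt_card.1 hi0
    -- the two shrunken families
    have key : ∀ z ∈ S i0, (∀ A : Finset ι, A.card ≤ rk K (Function.update S i0 ((S i0).erase z)) A) →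
        ∃ x : ι → V, (∀ i, x i ∈ S i) ∧ LinearIndependent K x := by
      intro z hz hA
      have hlt : (∑ i, ((Function.update S i0 ((S i0).erase z)) i).card) < n := by
        rw [← hn]
        apply Finset.sum_lt_sum
        · intro i _
          by_cases hi : i = i0
          · subst hi
            simp [Finset.card_erase_le]
          · simp [Function.update_of_ne hi]
        · refine ⟨i0, Finset.mem_univ _, ?_⟩
          simp only [Function.update_self]
          exact Finset.card_erase_lt_of_mem hz
      obtain ⟨w, hw, hwi⟩ := ih _ hlt _ rfl hA
      refine ⟨w, ?_, hwi⟩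
      intro i
      have := hw i
      by_cases hi : i = i0
      · subst hi
        rw [Function.update_self] at this
        exact Finset.mem_of_mem_erase this
      · rwa [Function.update_of_ne hi] at this
    by_cases hX : ∀ A : Finset ι, A.card ≤ rk K (Function.update S i0 ((S i0).erase x)) A
    · exact key x hx hX
    by_cases hY : ∀ A : Finset ι, A.card ≤ rk K (Function.update S i0 ((S i0).erase y)) A
    · exact key y hy hY
    exfalso
    push Not at hX hY
    obtain ⟨A, hA⟩ := hX
    obtain ⟨B, hB⟩ := hY
    have hmem : ∀ z A, rk K (Function.update S i0 ((S i0).erase z)) A < A.card → i0 ∈ A := by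
      intro z A hzA
      by_contra hcon
      have h3 : rk K (Function.update S i0 ((S i0).erase z)) A = rk K S A := by
        have h4 : (⋃ i ∈ A, ((Function.update S i0 ((S i0).erase z)) i : Set V)) =
            ⋃ i ∈ A, (S i : Set V) := by
          apply Set.iUnion₂_congr
          intro i hi
          rw [Function.update_of_ne]
          rintro rfl
          exact hcon hi
        rw [rk, rk, h4]
      rw [h3] at hzA
      exact absurd (h A) (by omega)
    have hiA := hmem x A hA
    have hiB := hmem y B hB
    set UA := span K (⋃ i ∈ A, ((Function.update S i0 ((S i0).erase x)) i : Set V)) with hUA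
    set UB := span K (⋃ i ∈ B, ((Function.update S i0 ((S i0).erase y)) i : Set V)) with hUB
    have : FiniteDimensional K UA := fd_span _ _
    have : FiniteDimensional K UB := fd_span _ _
    have hsum := Submodule.finrank_sup_add_finrank_inf_eq UA UB
    have hsup : (A ∪ B).card ≤ finrank K (UA ⊔ UB : Submodule K V) := by
      refine (h (A ∪ B)).trans ?_
      apply Submodule.finrank_mono
      rw [span_le]
      intro v hv
      simp only [Set.mem_iUnion, Finset.mem_coe, exists_prop] at hv
      obtain ⟨i, hi, hvi⟩ := hv
      by_cases hii : i = i0
      · subst hii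
        by_cases hvx : v = x
        · apply Submodule.mem_sup_right
          apply subset_span
          simp only [Set.mem_iUnion, exists_prop]
          refine ⟨i, hiB, ?_⟩
          rw [Function.update_self, hvx]
          simp [hx, hxy]
        · apply Submodule.mem_sup_left
          apply subset_span
          simp only [Set.mem_iUnion, exists_prop]
          refine ⟨i, hiA, ?_⟩
          rw [Function.update_self]
          simp [hvi, hvx]
      · rcases Finset.mem_union.1 hi with hi | hi
        · apply Submodule.mem_sup_left
          apply subset_span
          simp only [Set.mem_iUnion, exists_prop]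
          refine ⟨i, hi, ?_⟩
          rw [Function.update_of_ne hii]
          exact hvi
        · apply Submodule.mem_sup_right
          apply subset_span
          simp only [Set.mem_iUnion, exists_prop]
          refine ⟨i, hi, ?_⟩
          rw [Function.update_of_ne hii]
          exact hvi
    have hinf : ((A ∩ B).erase i0).card ≤ finrank K (UA ⊓ UB : Submodule K V) := by
      refine (h ((A ∩ B).erase i0)).trans ?_
      apply Submodule.finrank_mono
      rw [span_le]
      intro v hv
      simp only [Set.mem_iUnion, Finset.mem_coe, exists_prop] at hv
      obtain ⟨i, hi, hvi⟩ := hv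
      rw [Finset.mem_erase, Finset.mem_inter] at hi
      refine ⟨?_, ?_⟩
      · apply subset_span
        simp only [Set.mem_iUnion, exists_prop]
        refine ⟨i, hi.2.1, ?_⟩
        rw [Function.update_of_ne hi.1]
        exact hvi
      · apply subset_span
        simp only [Set.mem_iUnion, exists_prop]
        refine ⟨i, hi.2.2, ?_⟩
        rw [Function.update_of_ne hi.1]
        exact hvi
    have hc1 : ((A ∩ B).erase i0).card + 1 = (A ∩ B).card :=
      Finset.card_erase_add_one (Finset.mem_inter.2 ⟨hiA, hiB⟩)
    have hc2 := Finset.card_union_add_card_inter A B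
    have hA' : finrank K UA < A.card := hA
    have hB' : finrank K UB < B.card := hB
    omega

/-- **Covering theorem** for vectors: if every subfamily `A` has at most `κ · rank A` members
then the family is a union of `κ` linearly independent families. -/
theorem cover [Fintype ι] [DecidableEq ι] (u : ι → V) (κ : ℕ)
    (h : ∀ A : Finset ι, A.card ≤ κ * finrank K (span K (u '' (A : Set ι)))) :
    ∃ c : ι → Fin κ, ∀ j, LinearIndependent K (fun i : {i // c i = j} => u i) := by
  classical
  let S : ι → Finset (Fin κ → V) := fun i =>
    Finset.univ.image (fun j : Fin κ => (LinearMap.single K (fun _ : Fin κ => V) j) (u i))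
  have hS : ∀ A : Finset ι, A.card ≤ rk K S A := by
    intro A
    refine (h A).trans ?_
    set W := span K (u '' (A : Set ι)) with hW
    have : FiniteDimensional K W := FiniteDimensional.span_of_finite K (A.finite_toSet.image u)
    have hfd : FiniteDimensional K (span K (⋃ i ∈ A, (S i : Set (Fin κ → V)))) := fd_span _ _
    -- the map `(Fin κ → W) → span`
    have hmaps : ∀ f : Fin κ → W, (fun j => (f j : V)) ∈ span K (⋃ i ∈ A, (S i : Set (Fin κ → V))) := by
      intro f
      have h1 : (fun j => (f j : V)) = ∑ j, (LinearMap.single K (fun _ : Fin κ => V) j) (f j : V) := by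
        ext j
        simp [Finset.sum_apply, Pi.single_apply]
      rw [h1]
      apply Submodule.sum_mem
      intro j _
      have h2 : W ≤ Submodule.comap (LinearMap.single K (fun _ : Fin κ => V) j)
          (span K (⋃ i ∈ A, (S i : Set (Fin κ → V)))) := by
        rw [hW, span_le]
        rintro _ ⟨i, hi, rfl⟩
        apply subset_span
        simp only [Set.mem_iUnion, exists_prop]
        refine ⟨i, hi, ?_⟩
        simp only [S, Finset.coe_image, Finset.coe_univ, Set.image_univ, Set.mem_range]
        exact ⟨j, rfl⟩
      exact h2 (f j).2
    let g : (Fin κ → W) →ₗ[K] (span K (⋃ i ∈ A, (S i : Set (Fin κ → V)))) :=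
      { toFun := fun f => ⟨fun j => (f j : V), hmaps f⟩
        map_add' := by
          intro f f'
          ext j
          rfl
        map_smul' := by
          intro a f
          ext j
          rfl }
    have hg : Function.Injective g := by
      intro f f' hff
      ext j
      exact congrFun (Subtype.ext_iff.1 hff) j
    have h3 := LinearMap.finrank_le_finrank_of_injective hg
    have h4 : finrank K (Fin κ → W) = κ * finrank K W := by
      rw [Module.finrank_pi_fintype]
      simp
    rw [h4] at h3
    exact h3
  obtain ⟨x, hx, hxi⟩ := rado (K := K) _ S rfl hS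
  have hx' : ∀ i, ∃ j : Fin κ, (LinearMap.single K (fun _ : Fin κ => V) j) (u i) = x i := by
    intro i
    have := hx i
    simpa [S] using this
  choose c hc using hx'
  refine ⟨c, ?_⟩
  intro j
  have h1 : LinearIndependent K (fun i : {i // c i = j} => x i) :=
    hxi.comp _ Subtype.val_injective
  have h2 : (fun i : {i // c i = j} => x i) =
      (LinearMap.single K (fun _ : Fin κ => V) j) ∘ (fun i : {i // c i = j} => u i) := by
    funext i
    have := hc i.1
    rw [i.2] at this
    exact this.symm
  rw [h2] at h1
  exact h1.of_comp _

end Pool.Agent.Helper50.Diag
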