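import Pool.Agent.Helper50.Diag.Rado

/-!
The rank bound: in an identity `∑ cᵢ ℓᵢ^d = 0` between `d`-th powers of pairwise non-proportional
linear forms, with all `cᵢ ≠ 0`, the forms span a space of dimension at most `s / k` where
`k = ⌊(d+1)/2⌋`.
-/

namespace Pool.Agent.Helper50.Diag

open Submodule Module Finset Polynomial

variable {K V ι : Type*} [Field K] [AddCommGroup V] [Module K V]

/-- one differentiation step -/
theorem diff_step [CharZero K] [Fintype ι] (ℓ : ι → V) (b : ι → K) (e : ℕ) (v : Dual K V)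
    (h : ∀ x : Dual K V, ∑ i, b i * (x (ℓ i)) ^ (e + 1) = 0) :
    ∀ x : Dual K V, ∑ i, (b i * v (ℓ i)) * (x (ℓ i)) ^ e = 0 := by
  intro x
  let P : K[X] := ∑ i, C (b i) * (C (x (ℓ i)) + C (v (ℓ i)) * X) ^ (e + 1)
  have hP : P = 0 := by
    apply Polynomial.funext
    intro t
    have := h (x + t • v)
    simp only [P, eval_finsetSum, eval_mul, eval_C, eval_pow, eval_add, eval_X, eval_zero]
    rw [← this]
    apply Finset.sum_congr rfl
    intro i _
    simp only [LinearMap.add_apply, LinearMap.smul_apply, smul_eq_mul]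
    ring
  have hd : (derivative P).eval 0 = 0 := by rw [hP]; simp
  have h2 : (derivative P).eval 0 = ((e : K) + 1) * ∑ i, (b i * v (ℓ i)) * (x (ℓ i)) ^ e := by
    simp only [P, derivative_sum, derivative_mul, derivative_C, zero_mul, zero_add,
      derivative_pow, derivative_add, derivative_X, mul_one, eval_finsetSum, eval_mul, eval_C,
      eval_pow, eval_add, eval_X, mul_zero, add_zero, Finset.mul_sum]
    apply Finset.sum_congr rfl
    intro i _
    simp
    ring
  rw [h2] at hd
  have : ((e : K) + 1) ≠ 0 := by exact_mod_cast Nat.succ_ne_zero e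
  exact (mul_eq_zero.1 hd).resolve_left this

theorem diff_many [CharZero K] [Fintype ι] {J : Type*} [DecidableEq J] (ℓ : ι → V) (c : ι → K)
    (d : ℕ) (v : J → Dual K V)
    (h : ∀ x : Dual K V, ∑ i, c i * (x (ℓ i)) ^ d = 0) (T : Finset J) :
    T.card ≤ d → ∀ x : Dual K V,
      ∑ i, (c i * ∏ j ∈ T, v j (ℓ i)) * (x (ℓ i)) ^ (d - T.card) = 0 := by
  induction T using Finset.induction_on with
  | empty => intro _; simpa using h
  | insert j T hj ih =>
    intro hcard x
    rw [Finset.card_insert_of_notMem hj] at hcard ⊢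
    have h1 := ih (by omega)
    have h2 : d - T.card = (d - (T.card + 1)) + 1 := by omega
    rw [h2] at h1
    have h3 := diff_step ℓ _ _ (v j) h1 x
    rw [← h3]
    apply Finset.sum_congr rfl
    intro i _
    rw [Finset.prod_insert hj]
    ring

/-- separation: a product of at most `d` functionals vanishing at all `ℓ i`, `i ≠ e`, but not at
`ℓ e`, shows that `c e = 0`. -/
theorem separation [CharZero K] [Fintype ι] {J : Type*} [Fintype J] (ℓ : ι → V)
    (c : ι → K) (d : ℕ) (v : J → Dual K V) (hJ : Fintype.card J ≤ d)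
    (h : ∀ x : Dual K V, ∑ i, c i * (x (ℓ i)) ^ d = 0) (e : ι) (he0 : ℓ e ≠ 0)
    (he : ∀ j, v j (ℓ e) ≠ 0) (hi : ∀ i, i ≠ e → ∃ j, v j (ℓ i) = 0) : c e = 0 := by
  classical
  obtain ⟨x, hx, -⟩ := Submodule.exists_le_ker_of_notMem (p := (⊥ : Submodule K V)) (v := ℓ e)
    (by simpa using he0)
  have h1 := diff_many ℓ c d v h Finset.univ (by simpa using hJ) x
  rw [Finset.sum_eq_single e] at h1
  · have hprod : (∏ j, v j (ℓ e)) ≠ 0 := Finset.prod_ne_zero_iff.2 (fun j _ => he j)
    have hpow : (x (ℓ e)) ^ (d - (Finset.univ : Finset J).card) ≠ 0 := pow_ne_zero _ hx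
    rcases mul_eq_zero.1 h1 with h2 | h2
    · exact (mul_eq_zero.1 h2).resolve_right hprod
    · exact absurd h2 hpow
  · intro i _ hie
    obtain ⟨j, hj⟩ := hi i hie
    have : (∏ j, v j (ℓ i)) = 0 := Finset.prod_eq_zero (Finset.mem_univ j) hj
    rw [this]
    ring
  · intro hcon
    exact absurd (Finset.mem_univ e) hcon

/-- a functional not vanishing at `q` and vanishing at all members but at most one of an
independent family. -/
theorem exists_functional_all_but_one {I Q : Type*} [AddCommGroup Q] [Module K Q] [Fintype I]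
    (u : I → Q) (hu : LinearIndependent K u) (q : Q) (hq : q ≠ 0) :
    ∃ v : Dual K Q, v q ≠ 0 ∧ ∀ i j, v (u i) ≠ 0 → v (u j) ≠ 0 → i = j := by
  classical
  by_cases hmem : q ∈ span K (Set.range u)
  · rw [Submodule.mem_span_range_iff_exists_fun] at hmem
    obtain ⟨a, ha⟩ := hmem
    have hex : ∃ i1, a i1 ≠ 0 := by
      by_contra hcon
      push Not at hcon
      apply hq
      rw [← ha]
      apply Finset.sum_eq_zero
      intro i _
      rw [hcon i, zero_smul]
    obtain ⟨i1, hi1⟩ := hex
    have hnot : q ∉ span K (u '' {i | i ≠ i1}) := by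
      intro hcon
      have h1 : u i1 ∉ span K (u '' {i | i ≠ i1}) :=
        hu.notMem_span_image (by simp)
      apply h1
      have h2 : a i1 • u i1 = q - ∑ i ∈ Finset.univ.erase i1, a i • u i := by
        rw [← ha, ← Finset.add_sum_erase _ _ (Finset.mem_univ i1)]
        abel
      have h3 : a i1 • u i1 ∈ span K (u '' {i | i ≠ i1}) := by
        rw [h2]
        apply Submodule.sub_mem _ hcon
        apply Submodule.sum_mem
        intro i hi
        apply Submodule.smul_mem
        exact subset_span ⟨i, Finset.ne_of_mem_erase hi, rfl⟩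
      exact (Submodule.smul_mem_iff _ hi1).1 h3
    obtain ⟨v, hvq, hvk⟩ := Submodule.exists_le_ker_of_notMem hnot
    refine ⟨v, hvq, ?_⟩
    have hv : ∀ i, v (u i) ≠ 0 → i = i1 := by
      intro i hi
      by_contra hne
      apply hi
      have : u i ∈ LinearMap.ker v := hvk (subset_span ⟨i, hne, rfl⟩)
      simpa using this
    intro i j hi hj
    rw [hv i hi, hv j hj]
  · obtain ⟨v, hvq, hvk⟩ := Submodule.exists_le_ker_of_notMem hmem
    refine ⟨v, hvq, ?_⟩
    intro i j hi _
    exfalso
    apply hi
    have : u i ∈ LinearMap.ker v := hvk (subset_span ⟨i, rfl⟩)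
    simpa using this

/-- **Rank bound.** -/
theorem rank_bound [CharZero K] [FiniteDimensional K V] [Fintype ι] (ℓ : ι → V) (c : ι → K)
    (d k : ℕ) (hkd : 2 * k ≤ d + 1) (hc : ∀ i, c i ≠ 0) (hℓ : ∀ i, ℓ i ≠ 0)
    (hpair : ∀ i j, i ≠ j → ℓ i ∉ span K {ℓ j})
    (h : ∀ x : Dual K V, ∑ i, c i * (x (ℓ i)) ^ d = 0) :
    k * finrank K (span K (Set.range ℓ)) ≤ Fintype.card ι := by
  classical
  by_contra hcon
  push Not at hcon
  let r : Finset ι → ℕ := fun A => finrank K (span K (ℓ '' (A : Set ι)))
  let g : Finset ι → ℤ := fun A => (A.card : ℤ) - k * r A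
  obtain ⟨F, -, hF⟩ := Finset.exists_max_image (Finset.univ : Finset (Finset ι)) g
    ⟨∅, Finset.mem_univ _⟩
  have hF' : ∀ A, g A ≤ g F := fun A => hF A (Finset.mem_univ _)
  have hg0 : g ∅ = 0 := by
    simp [g, r]
  have hguniv : g Finset.univ < 0 := by
    have : r Finset.univ = finrank K (span K (Set.range ℓ)) := by
      simp only [r]
      rw [Finset.coe_univ, Set.image_univ]
    simp only [g, this, Finset.card_univ]
    have h1 : (Fintype.card ι : ℤ) < k * (finrank K (span K (Set.range ℓ)) : ℤ) := by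
      exact_mod_cast hcon
    linarith
  have hgF : 0 ≤ g F := by rw [← hg0]; exact hF' ∅
  -- `F` is closed
  have hclosed : ∀ i, i ∉ F → ℓ i ∉ span K (ℓ '' (F : Set ι)) := by
    intro i hi hmem
    have h1 : r (insert i F) = r F := by
      simp only [r]
      have : span K (ℓ '' ((insert i F : Finset ι) : Set ι)) = span K (ℓ '' (F : Set ι)) := by
        rw [Finset.coe_insert, Set.image_insert_eq, span_insert_eq_span hmem]
      rw [this]
    have h2 := hF' (insert i F)
    simp only [g, h1, Finset.card_insert_of_notMem hi] at h2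
    push_cast at h2
    linarith
  have hne : ∃ e, e ∉ F := by
    by_contra hcon2
    push Not at hcon2
    have : F = Finset.univ := by
      ext i
      simp [hcon2 i]
    rw [this] at hgF
    linarith
  obtain ⟨e, heF⟩ := hne
  set W := span K (ℓ '' (F : Set ι)) with hW
  have heW : ℓ e ∉ W := hclosed e heF
  have hrF : r F = finrank K W := rfl
  -- the remaining elements, modulo `W`
  let N := {i : ι // i ∉ F}
  let u : N → V ⧸ W := fun i => W.mkQ (ℓ i)
  have hcover : ∀ A : Finset N, A.card ≤ k * finrank K (span K (u '' (A : Set N))) := by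
    intro A
    let B : Finset ι := F ∪ A.map (Function.Embedding.subtype _)
    have h1 := hF' B
    have hBcard : B.card = F.card + A.card := by
      have hd1 : Disjoint F (A.map (Function.Embedding.subtype _)) := by
        rw [Finset.disjoint_left]
        intro i hi hi2
        simp only [Finset.mem_map, Function.Embedding.subtype_apply] at hi2
        obtain ⟨j, -, hj⟩ := hi2
        apply j.2
        rw [hj]
        exact hi
      simp only [B]
      rw [Finset.card_union_of_disjoint hd1, Finset.card_map]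
    set Y := span K (ℓ '' (B : Set ι)) with hY
    have hrB : r B = finrank K Y := rfl
    have hYmap : Submodule.map W.mkQ Y ≤ span K (u '' (A : Set N)) := by
      rw [hY, Submodule.map_span, span_le]
      rintro _ ⟨_, ⟨i, hi, rfl⟩, rfl⟩
      have hi' : i ∈ B := hi
      simp only [B, Finset.mem_union, Finset.mem_map,
        Function.Embedding.subtype_apply] at hi'
      rcases hi' with hi' | ⟨j, hj, rfl⟩
      · have : W.mkQ (ℓ i) = 0 := by
          simpa using (subset_span ⟨i, hi', rfl⟩ : ℓ i ∈ W)
        rw [this]; exact Submodule.zero_mem _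
      · exact subset_span ⟨j, hj, rfl⟩
    have hfinY : finrank K Y ≤ finrank K W + finrank K (span K (u '' (A : Set N))) := by
      have h2 := LinearMap.finrank_range_add_finrank_ker (W.mkQ.domRestrict Y)
      have h3 : finrank K (LinearMap.range (W.mkQ.domRestrict Y)) ≤
          finrank K (span K (u '' (A : Set N))) := by
        apply Submodule.finrank_mono
        refine le_trans ?_ hYmap
        rintro _ ⟨y, rfl⟩
        exact ⟨y.1, y.2, rfl⟩
      have h4 : finrank K (LinearMap.ker (W.mkQ.domRestrict Y)) ≤ finrank K W := by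
        have hmem : ∀ y : LinearMap.ker (W.mkQ.domRestrict Y), ((y.1 : Y) : V) ∈ W := by
          intro y
          have := y.2
          rw [LinearMap.mem_ker, LinearMap.domRestrict_apply] at this
          simpa using this
        let φ : LinearMap.ker (W.mkQ.domRestrict Y) →ₗ[K] W :=
          LinearMap.codRestrict W (Y.subtype.comp (LinearMap.ker (W.mkQ.domRestrict Y)).subtype)
            hmem
        apply LinearMap.finrank_le_finrank_of_injective (f := φ)
        intro y y' hyy
        have := Subtype.ext_iff.1 hyy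
        exact Subtype.ext (Subtype.ext this)
      omega
    have h7 : (A.card : ℤ) ≤ k * finrank K (span K (u '' (A : Set N))) := by
      simp only [g, hBcard] at h1
      push_cast at h1
      have h8 : (r B : ℤ) ≤ r F + finrank K (span K (u '' (A : Set N))) := by
        have : r B ≤ r F + finrank K (span K (u '' (A : Set N))) := by
          rw [hrB, hrF]; omega
        exact_mod_cast this
      have h9 : (k : ℤ) * r B ≤ k * (r F + finrank K (span K (u '' (A : Set N)))) :=
        mul_le_mul_of_nonneg_left h8 (by positivity)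
      linarith
    exact_mod_cast h7
  obtain ⟨cc, hcc⟩ := cover (K := K) u k hcover
  let e' : N := ⟨e, heF⟩
  have hqe : W.mkQ (ℓ e) ≠ 0 := by simpa using heW
  -- functional for the class of `e`
  have hv0 : ∃ v : Dual K V, v (ℓ e) ≠ 0 ∧ (∀ i ∈ F, v (ℓ i) = 0) ∧
      ∀ i : N, cc i = cc e' → i.1 ≠ e → v (ℓ i) = 0 := by
    have hnot : u e' ∉ span K
        ((fun i : {i : N // cc i = cc e'} => u i) '' {i | i ≠ ⟨e', rfl⟩}) := by
      have := (hcc (cc e')).notMem_span_image (s := {i | i ≠ ⟨e', rfl⟩}) (x := ⟨e', rfl⟩)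
        (by simp)
      exact this
    obtain ⟨v, hve, hvk⟩ := Submodule.exists_le_ker_of_notMem hnot
    refine ⟨v.comp W.mkQ, hve, ?_, ?_⟩
    · intro i hi
      have : W.mkQ (ℓ i) = 0 := by simpa using (subset_span ⟨i, hi, rfl⟩ : ℓ i ∈ W)
      rw [LinearMap.comp_apply, this, map_zero]
    · intro i hi hie
      have : u i ∈ LinearMap.ker v := hvk (subset_span ⟨⟨i, hi⟩, by
        intro hcon2
        apply hie
        have := Subtype.ext_iff.1 hcon2
        simp only at this
        rw [this], rfl⟩)
      exact LinearMap.mem_ker.1 this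
  obtain ⟨v0, hv0e, hv0F, hv0N⟩ := hv0
  -- pairs of functionals for the classes
  have hv1 : ∀ j : Fin k, ∃ v w : Dual K V, v (ℓ e) ≠ 0 ∧ w (ℓ e) ≠ 0 ∧
      (∀ i ∈ F, v (ℓ i) = 0) ∧
      ∀ i : N, cc i = j → i.1 ≠ e → v (ℓ i) = 0 ∨ w (ℓ i) = 0 := by
    intro j
    obtain ⟨v, hve, hv1⟩ := exists_functional_all_but_one _ (hcc j) _ hqe
    by_cases hex : ∃ i : N, cc i = j ∧ i.1 ≠ e ∧ v (u i) ≠ 0
    · obtain ⟨i1, hi1, hi1e, hi1v⟩ := hex
      obtain ⟨w, hwe, hwk⟩ := Submodule.exists_le_ker_of_notMem (hpair e i1.1 (Ne.symm hi1e))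
      refine ⟨v.comp W.mkQ, w, hve, hwe, ?_, ?_⟩
      · intro i hi
        have : W.mkQ (ℓ i) = 0 := by simpa using (subset_span ⟨i, hi, rfl⟩ : ℓ i ∈ W)
        rw [LinearMap.comp_apply, this, map_zero]
      · intro i hi hie
        by_cases hvi : v (u i) = 0
        · exact Or.inl hvi
        · right
          have h1 := hv1 ⟨i, hi⟩ ⟨i1, hi1⟩ hvi hi1v
          have h2 : i = i1 := congrArg (fun x : {i : N // cc i = j} => x.1) h1
          rw [h2]
          have : ℓ i1.1 ∈ LinearMap.ker w := hwk (subset_span rfl)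
          simpa using this
    · push Not at hex
      refine ⟨v.comp W.mkQ, v.comp W.mkQ, hve, hve, ?_, ?_⟩
      · intro i hi
        have : W.mkQ (ℓ i) = 0 := by simpa using (subset_span ⟨i, hi, rfl⟩ : ℓ i ∈ W)
        rw [LinearMap.comp_apply, this, map_zero]
      · intro i hi hie
        exact Or.inl (hex i hi hie)
  choose v1 w1 hv1e hw1e hv1F hv1N using hv1
  have hkpos : 0 < k := (cc e').pos
  have hfinal := separation (J := Option {j : Fin k // j ≠ cc e'} ⊕ {j : Fin k // j ≠ cc e'}) ℓ c d
    (Sum.elim (fun o => o.elim v0 (fun j => v1 j)) (fun j => w1 j)) (by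
      have h1 : Fintype.card {j : Fin k // j ≠ cc e'} = k - 1 := by
        rw [Fintype.card_subtype_compl, Fintype.card_fin, Fintype.card_subtype_eq]
      rw [Fintype.card_sum, Fintype.card_option, h1]
      omega) h e (hℓ e) (by
      rintro ((_ | j) | j)
      · exact hv0e
      · exact hv1e j
      · exact hw1e j) (by
      intro i hie
      by_cases hiF : i ∈ F
      · exact ⟨Sum.inl none, hv0F i hiF⟩
      · by_cases hci : cc ⟨i, hiF⟩ = cc e'
        · exact ⟨Sum.inl none, hv0N ⟨i, hiF⟩ hci hie⟩
        · rcases hv1N (cc ⟨i, hiF⟩) ⟨i, hiF⟩ rfl hie with h1 | h1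
          · exact ⟨Sum.inl (some ⟨_, hci⟩), h1⟩
          · exact ⟨Sum.inr ⟨_, hci⟩, h1⟩)
  exact hc e hfinal

end Pool.Agent.Helper50.Diag
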