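import Mathlib

/-!
A rank extractor: for linearly independent polynomials `p₁,…,p_r` over a field of characteristic
zero the folded Wronskian `det (pᵢ(2^j X))` is a non-zero polynomial.
-/

namespace Pool.Agent.Helper50.Diag

open Submodule Module Finset Polynomial Matrix

variable {K : Type*} [Field K]

/-- A finite-dimensional space of polynomials of bounded degree contains a full set of
polynomials of distinct degrees. -/
theorem exists_distinct_degrees (B : ℕ) (r : ℕ) : ∀ W : Submodule K K[X],
    (∀ q ∈ W, q.natDegree ≤ B) → FiniteDimensional K W → finrank K W = r →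
    ∃ q : Fin r → K[X], (∀ i, q i ∈ W) ∧ (∀ i, q i ≠ 0) ∧
      Function.Injective (fun i => (q i).natDegree) := by
  induction r with
  | zero =>
    intro W _ _ _
    exact ⟨fun i => i.elim0, fun i => i.elim0, fun i => i.elim0, fun i => i.elim0⟩
  | succ r ih =>
    intro W hW hfd hr
    classical
    -- the maximal degree
    let S : Set ℕ := {δ | ∃ q ∈ W, q ≠ 0 ∧ q.natDegree = δ}
    have hSne : S.Nonempty := by
      have : W ≠ ⊥ := by
        rintro rfl
        rw [finrank_bot] at hr
        omega
      obtain ⟨q, hq, hq0⟩ := Submodule.exists_mem_ne_zero_of_ne_bot this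
      exact ⟨_, q, hq, hq0, rfl⟩
    have hSbdd : BddAbove S := ⟨B, by rintro _ ⟨q, hq, -, rfl⟩; exact hW q hq⟩
    obtain ⟨q0, hq0W, hq00, hq0d⟩ := Nat.sSup_mem hSne hSbdd
    set δ := sSup S with hδ
    have hle : ∀ q ∈ W, q.natDegree ≤ δ := by
      intro q hq
      by_cases h0 : q = 0
      · simp [h0]
      · exact le_csSup hSbdd ⟨q, hq, h0, rfl⟩
    let φ : Dual K W := (Polynomial.lcoeff K δ).domRestrict W
    have hφ : φ ≠ 0 := by
      intro h0
      have h1 : φ ⟨q0, hq0W⟩ = 0 := by rw [h0]; rfl
      have h2 : q0.coeff δ = 0 := h1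
      rw [← hq0d] at h2
      exact hq00 (Polynomial.leadingCoeff_eq_zero.1 h2)
    have hker := Module.Dual.finrank_ker_add_one_of_ne_zero hφ
    rw [hr] at hker
    let W' : Submodule K K[X] := (LinearMap.ker φ).map W.subtype
    have hW'mem : ∀ q, q ∈ W' ↔ q ∈ W ∧ q.coeff δ = 0 := by
      intro q
      simp only [W', Submodule.mem_map, LinearMap.mem_ker, Submodule.subtype_apply]
      constructor
      · rintro ⟨y, hy, rfl⟩
        exact ⟨y.2, hy⟩
      · rintro ⟨hq, hq2⟩
        exact ⟨⟨q, hq⟩, hq2, rfl⟩
    have hfin' : finrank K W' = r := by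
      have : finrank K W' = finrank K (LinearMap.ker φ) :=
        Submodule.finrank_map_subtype_eq W (LinearMap.ker φ)
      omega
    obtain ⟨q, hq, hqne, hqinj⟩ := ih W' (fun q hq => hW q ((hW'mem q).1 hq).1)
      (by infer_instance) hfin'
    refine ⟨Fin.snoc q q0, ?_, ?_, ?_⟩
    · intro i
      refine Fin.lastCases ?_ (fun i => ?_) i
      · simpa using hq0W
      · simpa using ((hW'mem _).1 (hq i)).1
    · intro i
      refine Fin.lastCases ?_ (fun i => ?_) i
      · simpa using hq00
      · simpa using hqne i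
    · have hlt : ∀ i, (q i).natDegree < δ := by
        intro i
        have h1 := (hW'mem _).1 (hq i)
        refine lt_of_le_of_ne (hle _ h1.1) ?_
        intro h2
        rw [← h2] at h1
        exact hqne i (Polynomial.leadingCoeff_eq_zero.1 h1.2)
      intro i j
      refine Fin.lastCases ?_ (fun i => ?_) i
      · refine Fin.lastCases ?_ (fun j => ?_) j
        · intro _; rfl
        · intro h
          simp only [Fin.snoc_last, Fin.snoc_castSucc] at h
          have := hlt j
          omega
      · refine Fin.lastCases ?_ (fun j => ?_) j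
        · intro h
          simp only [Fin.snoc_last, Fin.snoc_castSucc] at h
          have := hlt i
          omega
        · intro h
          simp only [Fin.snoc_castSucc] at h
          rw [hqinj h]

theorem coeff_prod_natDegree_le {ι : Type*} (s : Finset ι) (f : ι → K[X]) (d : ι → ℕ)
    (h : ∀ i ∈ s, (f i).natDegree ≤ d i) :
    (∏ i ∈ s, f i).coeff (∑ i ∈ s, d i) = ∏ i ∈ s, (f i).coeff (d i) := by
  classical
  induction s using Finset.induction_on with
  | empty => simp
  | insert i s hi ih =>
    rw [Finset.prod_insert hi, Finset.sum_insert hi, Finset.prod_insert hi]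
    have h1 : (∏ i ∈ s, f i).natDegree ≤ ∑ i ∈ s, d i :=
      (Polynomial.natDegree_prod_le _ _).trans
        (Finset.sum_le_sum (fun j hj => h j (Finset.mem_insert_of_mem hj)))
    rw [Polynomial.coeff_mul_add_eq_of_natDegree_le (h i (Finset.mem_insert_self _ _)) h1,
      ih (fun j hj => h j (Finset.mem_insert_of_mem hj))]

theorem coeff_det {r : ℕ} (M : Matrix (Fin r) (Fin r) K[X]) (d : Fin r → ℕ)
    (h : ∀ i j, (M i j).natDegree ≤ d i) :
    (det M).coeff (∑ i, d i) = det (Matrix.of fun i j => (M i j).coeff (d i)) := by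
  rw [Matrix.det_apply, Matrix.det_apply, Polynomial.finsetSum_coeff]
  apply Finset.sum_congr rfl
  intro σ _
  have h1 : (∑ i, d i) = ∑ i, d (σ i) := (Equiv.sum_comp σ d).symm
  rw [Polynomial.coeff_smul, h1, coeff_prod_natDegree_le _ _ _ (fun i _ => h (σ i) i)]
  rfl

theorem natDegree_det_le {r : ℕ} (M : Matrix (Fin r) (Fin r) K[X]) (B : ℕ)
    (h : ∀ i j, (M i j).natDegree ≤ B) : (det M).natDegree ≤ r * B := by
  rw [Matrix.det_apply]
  apply Polynomial.natDegree_sum_le_of_forall_le
  intro σ _
  refine (Polynomial.natDegree_smul_le _ _).trans ?_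
  refine (Polynomial.natDegree_prod_le _ _).trans ?_
  refine (Finset.sum_le_sum (fun i _ => h (σ i) i)).trans ?_
  simp

/-- folded Wronskian of polynomials with distinct degrees -/
theorem folded_ne_zero_aux [CharZero K] {r : ℕ} (q : Fin r → K[X]) (h0 : ∀ i, q i ≠ 0)
    (hinj : Function.Injective (fun i => (q i).natDegree)) :
    det (Matrix.of fun i j : Fin r => (q i).comp (C ((2 : K) ^ (j : ℕ)) * X)) ≠ 0 := by
  intro hcon
  have hdeg : ∀ i j : Fin r, ((q i).comp (C ((2 : K) ^ (j : ℕ)) * X)).natDegree ≤
      (q i).natDegree := by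
    intro i j
    refine (Polynomial.natDegree_comp_le).trans ?_
    have : (C ((2 : K) ^ (j : ℕ)) * X).natDegree ≤ 1 := by
      refine (Polynomial.natDegree_C_mul_le _ _).trans ?_
      simp
    calc (q i).natDegree * (C ((2 : K) ^ (j : ℕ)) * X).natDegree
        ≤ (q i).natDegree * 1 := Nat.mul_le_mul_left _ this
      _ = _ := by ring
  have h1 := coeff_det (Matrix.of fun i j : Fin r => (q i).comp (C ((2 : K) ^ (j : ℕ)) * X))
    (fun i => (q i).natDegree) hdeg
  rw [hcon, Polynomial.coeff_zero] at h1
  have h2 : (Matrix.of fun i j : Fin r => ((Matrix.of fun i j : Fin r =>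
      (q i).comp (C ((2 : K) ^ (j : ℕ)) * X)) i j).coeff ((q i).natDegree)) =
      Matrix.of fun i j : Fin r => (q i).leadingCoeff *
        (vandermonde (fun i : Fin r => (2 : K) ^ (q i).natDegree)) i j := by
    ext i j
    simp only [Matrix.of_apply, Polynomial.comp_C_mul_X_coeff, vandermonde_apply,
      Polynomial.leadingCoeff]
    rw [← pow_mul, ← pow_mul, mul_comm (j : ℕ)]
  rw [h2, Matrix.det_mul_column] at h1
  have h3 : (∏ i, (q i).leadingCoeff) ≠ 0 :=
    Finset.prod_ne_zero_iff.2 (fun i _ => Polynomial.leadingCoeff_ne_zero.2 (h0 i))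
  have h4 : det (vandermonde (fun i : Fin r => (2 : K) ^ (q i).natDegree)) ≠ 0 := by
    rw [Matrix.det_vandermonde_ne_zero_iff]
    intro i j hij
    apply hinj
    have h5 : ((2 ^ (q i).natDegree : ℕ) : K) = ((2 ^ (q j).natDegree : ℕ) : K) := by
      push_cast
      exact hij
    exact Nat.pow_right_injective le_rfl (Nat.cast_injective h5)
  exact (mul_ne_zero h3 h4) h1.symm

/-- the polynomial with the given coefficients -/
noncomputable def pol (N : ℕ) : (Fin N → K) →ₗ[K] K[X] :=
  ∑ k : Fin N, (Polynomial.monomial (k : ℕ)).comp (LinearMap.proj k)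

theorem pol_apply (N : ℕ) (a : Fin N → K) : pol N a = ∑ k : Fin N, monomial (k : ℕ) (a k) := by
  simp [pol]

theorem pol_coeff (N : ℕ) (a : Fin N → K) (k : Fin N) : (pol N a).coeff k = a k := by
  rw [pol_apply, Polynomial.finsetSum_coeff, Finset.sum_eq_single k]
  · simp
  · intro j _ hj
    rw [Polynomial.coeff_monomial, if_neg]
    intro h
    exact hj (Fin.ext h)
  · intro h
    exact absurd (Finset.mem_univ k) h

theorem pol_injective (N : ℕ) : Function.Injective (pol (K := K) N) := by
  intro a b hab
  funext k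
  rw [← pol_coeff N a k, ← pol_coeff N b k, hab]

theorem pol_natDegree (N : ℕ) (a : Fin N → K) : (pol N a).natDegree ≤ N - 1 := by
  rw [pol_apply]
  apply Polynomial.natDegree_sum_le_of_forall_le
  intro k _
  refine (Polynomial.natDegree_monomial_le _).trans ?_
  have := k.2
  omega

theorem pol_eval (N : ℕ) (a : Fin N → K) (z : K) : (pol N a).eval z = ∑ k : Fin N, a k * z ^ (k : ℕ) := by
  rw [pol_apply, Polynomial.eval_finsetSum]
  simp

/-- the extractor -/
noncomputable def ext (N m : ℕ) (t : K) : (Fin N → K) →ₗ[K] (Fin m → K) :=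
  LinearMap.pi (fun j : Fin m => (Polynomial.leval ((2 : K) ^ (j : ℕ) * t)).comp (pol N))

theorem ext_apply (N m : ℕ) (t : K) (a : Fin N → K) (j : Fin m) :
    ext N m t a j = (pol N a).eval ((2 : K) ^ (j : ℕ) * t) := by
  simp [ext]

/-- **Rank extraction.** -/
theorem extract [CharZero K] (N r m : ℕ) (hrm : r ≤ m) (a : Fin r → Fin N → K)
    (ha : LinearIndependent K a) :
    ∃ D : K[X], D ≠ 0 ∧ D.natDegree ≤ r * (N - 1) ∧
      ∀ t : K, D.eval t ≠ 0 → LinearIndependent K (fun i => ext N m t (a i)) := by
  classical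
  let P : Matrix (Fin r) (Fin r) K[X] :=
    Matrix.of fun i j : Fin r => (pol N (a i)).comp (C ((2 : K) ^ (j : ℕ)) * X)
  refine ⟨det P, ?_, ?_, ?_⟩
  · -- non-vanishing
    have hli : LinearIndependent K (fun i => pol N (a i)) :=
      ha.map' (pol N) (LinearMap.ker_eq_bot.2 (pol_injective N))
    set W := span K (Set.range (fun i => pol N (a i))) with hW
    have hfin : finrank K W = r := by
      rw [finrank_span_eq_card hli, Fintype.card_fin]
    have hWdeg : ∀ q ∈ W, q.natDegree ≤ N - 1 := by
      intro q hq
      rw [hW, Submodule.mem_span_range_iff_exists_fun] at hq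
      obtain ⟨c, rfl⟩ := hq
      apply Polynomial.natDegree_sum_le_of_forall_le
      intro i _
      exact (Polynomial.natDegree_smul_le _ _).trans (pol_natDegree N _)
    have hfd : FiniteDimensional K W := FiniteDimensional.span_of_finite K (Set.finite_range _)
    obtain ⟨q, hqW, hq0, hqinj⟩ := exists_distinct_degrees (N - 1) r W hWdeg hfd hfin
    have hA : ∀ i, ∃ c : Fin r → K, ∑ k, c k • pol N (a k) = q i := by
      intro i
      have := hqW i
      rwa [hW, Submodule.mem_span_range_iff_exists_fun] at this
    choose A hA using hA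
    have hprod : (Matrix.of fun i j : Fin r => (q i).comp (C ((2 : K) ^ (j : ℕ)) * X)) =
        (Matrix.of fun i k : Fin r => C (A i k)) * P := by
      ext1 i j
      rw [Matrix.mul_apply]
      simp only [Matrix.of_apply, P]
      rw [← hA i, Polynomial.sum_comp]
      apply Finset.sum_congr rfl
      intro k _
      rw [Polynomial.smul_comp, Polynomial.smul_eq_C_mul]
    have hne := folded_ne_zero_aux q hq0 hqinj
    rw [hprod, Matrix.det_mul] at hne
    exact right_ne_zero_of_mul hne
  · apply natDegree_det_le
    intro i j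
    simp only [P, Matrix.of_apply]
    refine (Polynomial.natDegree_comp_le).trans ?_
    have : (C ((2 : K) ^ (j : ℕ)) * X).natDegree ≤ 1 := by
      refine (Polynomial.natDegree_C_mul_le _ _).trans ?_
      simp
    calc (pol N (a i)).natDegree * (C ((2 : K) ^ (j : ℕ)) * X).natDegree
        ≤ (N - 1) * 1 := Nat.mul_le_mul (pol_natDegree N _) this
      _ = _ := by ring
  · intro t ht
    rw [Fintype.linearIndependent_iff]
    intro g hg
    have hdet : det ((Polynomial.evalRingHom t).mapMatrix P) ≠ 0 := by
      rw [← RingHom.map_det]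
      exact ht
    have hv : Matrix.vecMul g ((Polynomial.evalRingHom t).mapMatrix P) = 0 := by
      funext j
      have h1 := congrFun hg (Fin.castLE hrm j)
      simp only [Finset.sum_apply, Pi.smul_apply, ext_apply, smul_eq_mul, Pi.zero_apply,
        Fin.val_castLE] at h1
      simp only [Matrix.vecMul, dotProduct, RingHom.mapMatrix_apply, Matrix.map_apply, P,
        Matrix.of_apply, Polynomial.coe_evalRingHom, Polynomial.eval_comp, Polynomial.eval_mul,
        Polynomial.eval_C, Polynomial.eval_X, Pi.zero_apply]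
      exact h1
    have := Matrix.eq_zero_of_vecMul_eq_zero hdet hv
    intro i
    rw [this]
    rfl

end Pool.Agent.Helper50.Diag
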