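import Pool.Agent.Helper50.Diag.RankBound
import Pool.Agent.Helper50.Diag.Wronsk
import Pool.Agent.Helper50.Diag.Isolate

/-!
Variable reduction for sums of `d`-th powers of linear forms.
-/

namespace Pool.Agent.Helper50.Diag

open Finset Polynomial Module Submodule

variable {K : Type*} [Field K]

/-- a representation with the fewest terms has non-zero coefficients and pairwise
non-proportional, non-zero forms. -/
theorem minimal_rep {N s d : ℕ} (hd : d ≠ 0) (c : Fin s → K) (a : Fin s → Fin N → K) :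
    ∃ (S : Finset (Fin s)) (c' : Fin s → K),
      (∀ x : Dual K (Fin N → K), ∑ i ∈ S, c' i * (x (a i)) ^ d = ∑ i, c i * (x (a i)) ^ d) ∧
      (∀ i ∈ S, c' i ≠ 0) ∧ (∀ i ∈ S, a i ≠ 0) ∧
      (∀ i ∈ S, ∀ j ∈ S, i ≠ j → a i ∉ span K {a j}) := by
  classical
  have hex : ∃ r : ℕ, ∃ (S : Finset (Fin s)) (c' : Fin s → K), S.card = r ∧
      ∀ x : Dual K (Fin N → K), ∑ i ∈ S, c' i * (x (a i)) ^ d = ∑ i, c i * (x (a i)) ^ d :=
    ⟨_, Finset.univ, c, rfl, fun _ => rfl⟩
  obtain ⟨S, c', hcard, hrep⟩ := Nat.find_spec hex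
  have hmin : ∀ (S' : Finset (Fin s)) (c'' : Fin s → K), S'.card < S.card →
      ¬ ∀ x : Dual K (Fin N → K), ∑ i ∈ S', c'' i * (x (a i)) ^ d = ∑ i, c i * (x (a i)) ^ d := by
    intro S' c'' hlt h
    rw [hcard] at hlt
    exact Nat.find_min hex hlt ⟨S', c'', rfl, h⟩
  refine ⟨S, c', hrep, ?_, ?_, ?_⟩
  · intro i hi h0
    refine hmin (S.erase i) c' (Finset.card_erase_lt_of_mem hi) (fun x => ?_)
    rw [← hrep x, ← Finset.add_sum_erase S _ hi, h0]
    ring
  · intro i hi h0
    refine hmin (S.erase i) c' (Finset.card_erase_lt_of_mem hi) (fun x => ?_)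
    rw [← hrep x, ← Finset.add_sum_erase S _ hi, h0, map_zero, zero_pow hd]
    ring
  · intro i hi j hj hij hmem
    obtain ⟨lam, hlam⟩ := Submodule.mem_span_singleton.1 hmem
    refine hmin (S.erase i) (Function.update c' j (c' j + lam ^ d * c' i))
      (Finset.card_erase_lt_of_mem hi) (fun x => ?_)
    have hji : j ∈ S.erase i := Finset.mem_erase.2 ⟨hij.symm, hj⟩
    rw [← hrep x, ← Finset.add_sum_erase S _ hi, ← Finset.add_sum_erase (S.erase i) _ hji,
      ← Finset.add_sum_erase (S.erase i) _ hji, Function.update_self, ← hlam, map_smul]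
    have h1 : ∑ x_1 ∈ (S.erase i).erase j,
        Function.update c' j (c' j + lam ^ d * c' i) x_1 * x (a x_1) ^ d =
        ∑ x_1 ∈ (S.erase i).erase j, c' x_1 * x (a x_1) ^ d := by
      apply Finset.sum_congr rfl
      intro l hl
      rw [Function.update_of_ne (Finset.ne_of_mem_erase hl)]
    rw [h1, smul_eq_mul, mul_pow]
    ring

/-- **Variable reduction.** -/
theorem reduce [CharZero K] {ι : Type*} [Fintype ι] (N m s d k : ℕ) (hk : 2 * k ≤ d + 1)
    (hm2 : 2 ≤ m) (hmk : s < k * m) (hs : Fintype.card ι ≤ s) (c : ι → K) (a : ι → Fin N → K)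
    (hc : ∀ i, c i ≠ 0) (ha : ∀ i, a i ≠ 0) (hpair : ∀ i j, i ≠ j → a i ∉ span K {a j})
    (hne : ∃ x : Dual K (Fin N → K), ∑ i, c i * (x (a i)) ^ d ≠ 0) :
    ∃ t < (2 * s ^ 2 + m) * (N - 1) + 1, ∃ y : Dual K (Fin m → K),
      ∑ i, c i * (y (ext N m (t : K) (a i))) ^ d ≠ 0 := by
  classical
  set A := span K (Set.range a) with hA
  have hAfd : FiniteDimensional K A := inferInstance
  set r := finrank K A with hr
  set m' := min r m with hm'
  -- independent vectors in `A`
  let bs : Fin m' → Fin N → K := fun i => (Module.finBasis K A (Fin.castLE (min_le_left _ _) i) : A)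
  have hbsA : ∀ i, bs i ∈ A := fun i => Subtype.property _
  have hbs : LinearIndependent K bs := by
    have h1 : LinearIndependent K (fun i : Fin (finrank K A) => ((Module.finBasis K A i : A) : Fin N → K)) :=
      (Module.finBasis K A).linearIndependent.map' A.subtype A.ker_subtype
    exact h1.comp _ (Fin.castLE_injective _)
  obtain ⟨D0, hD0, hD0deg, hD0t⟩ := extract N m' m (min_le_right _ _) bs hbs
  have hpairli : ∀ p : {p : ι × ι // p.1 ≠ p.2}, LinearIndependent K ![a p.1.1, a p.1.2] := by
    rintro ⟨⟨i, j⟩, hij⟩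
    rw [LinearIndependent.pair_iff]
    intro u v huv
    have hu : u = 0 := by
      by_contra hu0
      apply hpair i j hij
      rw [Submodule.mem_span_singleton]
      refine ⟨-(u⁻¹ * v), ?_⟩
      have h1 : a i = u⁻¹ • (u • a i) := by rw [smul_smul, inv_mul_cancel₀ hu0, one_smul]
      rw [h1, eq_neg_of_add_eq_zero_left huv, smul_neg, smul_smul, neg_smul]
    refine ⟨hu, ?_⟩
    rw [hu, zero_smul, zero_add] at huv
    exact (smul_eq_zero.1 huv).resolve_right (ha j)
  choose D hD hDdeg hDt using fun p => extract N 2 m hm2 _ (hpairli p)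
  -- the product polynomial
  let Pr : K[X] := D0 * ∏ p, D p
  have hPr : Pr ≠ 0 := mul_ne_zero hD0 (Finset.prod_ne_zero_iff.2 (fun p _ => hD p))
  have hcardp : Fintype.card {p : ι × ι // p.1 ≠ p.2} ≤ s ^ 2 := by
    refine (Fintype.card_subtype_le _).trans ?_
    rw [Fintype.card_prod, sq]
    exact Nat.mul_le_mul hs hs
  have hPrdeg : Pr.natDegree ≤ (2 * s ^ 2 + m) * (N - 1) := by
    refine (Polynomial.natDegree_mul_le).trans ?_
    have h1 : (∏ p, D p).natDegree ≤ s ^ 2 * (2 * (N - 1)) := by
      refine (Polynomial.natDegree_prod_le _ _).trans ?_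
      refine (Finset.sum_le_sum (fun p _ => hDdeg p)).trans ?_
      rw [Finset.sum_const, Finset.card_univ, smul_eq_mul]
      exact Nat.mul_le_mul_right _ hcardp
    have h2 : D0.natDegree ≤ m * (N - 1) :=
      hD0deg.trans (Nat.mul_le_mul_right _ (min_le_right _ _))
    calc D0.natDegree + (∏ p, D p).natDegree ≤ m * (N - 1) + s ^ 2 * (2 * (N - 1)) :=
          Nat.add_le_add h2 h1
      _ = _ := by ring
  have hext : ∃ t < (2 * s ^ 2 + m) * (N - 1) + 1, Pr.eval (t : K) ≠ 0 := by
    by_contra hcon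
    push Not at hcon
    have h1 : ((Finset.range ((2 * s ^ 2 + m) * (N - 1) + 1)).image (fun t : ℕ => (t : K))) ⊆
        Pr.roots.toFinset := by
      intro z hz
      obtain ⟨t, ht, rfl⟩ := Finset.mem_image.1 hz
      rw [Multiset.mem_toFinset, Polynomial.mem_roots hPr, Polynomial.IsRoot.def]
      exact hcon t (Finset.mem_range.1 ht)
    have h2 := Finset.card_le_card h1
    rw [Finset.card_image_of_injective _ Nat.cast_injective, Finset.card_range] at h2
    have h3 := Multiset.toFinset_card_le Pr.roots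
    have h4 := Polynomial.card_roots' Pr
    omega
  obtain ⟨t, htlt, ht⟩ := hext
  refine ⟨t, htlt, ?_⟩
  rw [Polynomial.eval_mul, Polynomial.eval_prod] at ht
  have ht0 : D0.eval (t : K) ≠ 0 := left_ne_zero_of_mul ht
  have htp : ∀ p, (D p).eval (t : K) ≠ 0 := fun p =>
    Finset.prod_ne_zero_iff.1 (right_ne_zero_of_mul ht) p (Finset.mem_univ p)
  set E := ext N m (t : K) with hE
  have hli0 : LinearIndependent K (fun i => E (bs i)) := hD0t _ ht0
  have hlip : ∀ i j, i ≠ j → LinearIndependent K ![E (a i), E (a j)] := by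
    intro i j hij
    have h1 := hDt ⟨(i, j), hij⟩ _ (htp ⟨(i, j), hij⟩)
    have h2 : (fun l => (ext N m (t : K)) ((![a i, a j] : Fin 2 → Fin N → K) l)) =
        ![E (a i), E (a j)] := by
      funext l
      fin_cases l <;> rfl
    rwa [h2] at h1
  by_contra hcon
  push Not at hcon
  -- nonvanishing of `E (a i)`
  have hEne : ∀ i, E (a i) ≠ 0 := by
    intro i
    by_cases hex : ∃ j, j ≠ i
    · obtain ⟨j, hj⟩ := hex
      exact (hlip i j hj.symm).ne_zero 0
    · push Not at hex
      -- only one form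
      have hr1 : 1 ≤ r := by
        rw [hr, Nat.one_le_iff_ne_zero]
        intro h0
        have h1 : A = ⊥ := by rwa [Submodule.finrank_eq_zero] at h0
        have h2 : a i ∈ A := subset_span ⟨i, rfl⟩
        rw [h1, Submodule.mem_bot] at h2
        exact ha i h2
      have hm'1 : 1 ≤ m' := le_min hr1 (by omega)
      intro h0
      have h1 : bs ⟨0, hm'1⟩ ∈ span K {a i} := by
        have : Set.range a = {a i} := by
          ext v
          constructor
          · rintro ⟨j, rfl⟩
            rw [hex j]; rfl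
          · rintro rfl
            exact ⟨i, rfl⟩
        rw [← this]
        exact hbsA _
      obtain ⟨lam, hlam⟩ := Submodule.mem_span_singleton.1 h1
      have h2 := hli0.ne_zero ⟨0, hm'1⟩
      apply h2
      rw [← hlam, map_smul, h0, smul_zero]
  have hEpair : ∀ i j, i ≠ j → E (a i) ∉ span K {E (a j)} := by
    intro i j hij hmem
    obtain ⟨lam, hlam⟩ := Submodule.mem_span_singleton.1 hmem
    have h1 := LinearIndependent.pair_iff.1 (hlip i j hij) 1 (-lam) (by
      rw [← hlam]
      simp)
    exact one_ne_zero h1.1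
  have hrank := rank_bound (fun i => E (a i)) c d k hk hc hEne hEpair hcon
  have hmap : span K (Set.range (fun i => E (a i))) = A.map E := by
    rw [hA, Submodule.map_span, ← Set.range_comp]
    rfl
  rw [hmap] at hrank
  have hm'le : m' ≤ finrank K (A.map E) := by
    have h1 : Set.range (fun i => E (bs i)) ⊆ (A.map E : Set (Fin m → K)) := by
      rintro _ ⟨i, rfl⟩
      exact ⟨bs i, hbsA i, rfl⟩
    have h2 := Submodule.finrank_mono (span_le.2 h1)
    rw [finrank_span_eq_card hli0, Fintype.card_fin] at h2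
    exact h2
  have hm'lt : m' < m := by
    have h1 : k * m' ≤ s := (Nat.mul_le_mul_left _ hm'le).trans (hrank.trans hs)
    exact lt_of_mul_lt_mul_left (lt_of_le_of_lt h1 hmk) (Nat.zero_le _)
  have hm'r : m' = r := by
    rcases min_choice r m with h | h
    · exact h
    · rw [hm', h] at hm'lt
      exact absurd hm'lt (lt_irrefl _)
  -- `E` is injective on `A`
  have hinj : Function.Injective (E.domRestrict A) := by
    rw [← LinearMap.ker_eq_bot, ← Submodule.finrank_eq_zero]
    have h1 := LinearMap.finrank_range_add_finrank_ker (E.domRestrict A)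
    have h2 : LinearMap.range (E.domRestrict A) = A.map E := LinearMap.range_domRestrict A E
    rw [h2] at h1
    omega
  obtain ⟨gi, hgi⟩ := LinearMap.exists_leftInverse_of_injective (E.domRestrict A)
    (LinearMap.ker_eq_bot.2 hinj)
  obtain ⟨x, hx⟩ := hne
  apply hx
  rw [← hcon ((x.comp A.subtype).comp gi)]
  apply Finset.sum_congr rfl
  intro i _
  congr 2
  have h1 : a i ∈ A := subset_span ⟨i, rfl⟩
  have h2 := LinearMap.congr_fun hgi ⟨a i, h1⟩
  simp only [LinearMap.comp_apply, LinearMap.domRestrict_apply, LinearMap.id_apply] at h2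
  rw [LinearMap.comp_apply, LinearMap.comp_apply, h2]
  rfl

end Pool.Agent.Helper50.Diag
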